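import Pool.Agent.Lib.MP_7cdc3e_gt.D1.Defs

/-!
# MP_7cdc3e_gt, D1: basic lemmas on faces of cones (all proved)
-/

set_option autoImplicit false

open scoped RealInnerProductSpace
open Module

namespace TightRP

namespace D1

section Cone

variable {K : Type} [NormedAddCommGroup K] [InnerProductSpace ℝ K] {L F G : Set K}

theorem IsCone.sum (hL : IsCone L) {ι : Type} (s : Finset ι) (f : ι → K)
    (h : ∀ i ∈ s, f i ∈ L) : ∑ i ∈ s, f i ∈ L := by
  classical
  induction s using Finset.induction_on with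
  | empty => simpa using hL.zero
  | insert a s ha ih =>
    rw [Finset.sum_insert ha]
    exact hL.add _ (h _ (Finset.mem_insert_self _ _)) _
      (ih fun i hi => h i (Finset.mem_insert_of_mem hi))

theorem Fc.sum (hF : Fc L F) {ι : Type} (s : Finset ι) (f : ι → K)
    (h : ∀ i ∈ s, f i ∈ F) : ∑ i ∈ s, f i ∈ F := by
  classical
  induction s using Finset.induction_on with
  | empty => simpa using hF.zero
  | insert a s ha ih =>
    rw [Finset.sum_insert ha]
    exact hF.add _ (h _ (Finset.mem_insert_self _ _)) _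
      (ih fun i hi => h i (Finset.mem_insert_of_mem hi))

theorem Fc.ext' (hF : Fc L F) {x y : K} (hx : x ∈ L) (hy : y ∈ L) (h : x + y ∈ F) : y ∈ F :=
  hF.ext y hy x hx (by rwa [add_comm])

/-- scaling out -/
theorem Fc.of_smul (hF : Fc L F) {x : K} {t : ℝ} (ht : 0 < t) (h : t • x ∈ F) : x ∈ F := by
  have := hF.smul _ h t⁻¹ (inv_nonneg.2 ht.le)
  rwa [smul_smul, inv_mul_cancel₀ ht.ne', one_smul] at this

theorem Fc.self (hL : IsCone L) : Fc L L :=
  ⟨subset_rfl, hL.zero, hL.add, hL.smul, fun x hx _ _ _ => hx⟩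

theorem Fc.bot (hL : IsCone L) : Fc L {0} := by
  refine ⟨by rintro x rfl; exact hL.zero, rfl, ?_, ?_, ?_⟩
  · rintro x rfl y rfl; simp
  · rintro x rfl t _; simp
  · intro x hx y hy h
    have h' : x + y = 0 := h
    have : x = 0 := hL.pointed x hx (by
      have : -x = y := by rw [eq_comm, ← add_eq_zero_iff_eq_neg']; exact h'
      rw [this]; exact hy)
    exact this

theorem Fc.inter (hF : Fc L F) (hG : Fc L G) : Fc L (F ∩ G) :=
  ⟨fun x hx => hF.sub hx.1, ⟨hF.zero, hG.zero⟩,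
    fun x hx y hy => ⟨hF.add x hx.1 y hy.1, hG.add x hx.2 y hy.2⟩,
    fun x hx t ht => ⟨hF.smul x hx.1 t ht, hG.smul x hx.2 t ht⟩,
    fun x hx y hy h => ⟨hF.ext x hx y hy h.1, hG.ext x hx y hy h.2⟩⟩

theorem Fc.trans (hF : Fc L F) (hG : Fc F G) : Fc L G :=
  ⟨hG.sub.trans hF.sub, hG.zero, hG.add, hG.smul, fun x hx y hy h =>
    hG.ext x (hF.ext x hx y hy (hG.sub h)) y (hF.ext' hx hy (hG.sub h)) h⟩

theorem Fc.of_sub (hF : Fc L F) (hG : Fc L G) (h : G ⊆ F) : Fc F G :=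
  ⟨h, hG.zero, hG.add, hG.smul, fun x hx y hy h => hG.ext x (hF.sub hx) y (hF.sub hy) h⟩

theorem Fa_sub_self {x : K} : Fa L x ⊆ L := fun _ h => h.1

theorem Fa_face (hL : IsCone L) {x : K} (hx : x ∈ L) : Fc L (Fa L x) := by
  refine ⟨Fa_sub_self, ⟨hL.zero, 0, le_rfl, by simpa using hL.zero⟩, ?_, ?_, ?_⟩
  · rintro y ⟨hy, t, ht, h⟩ y' ⟨hy', t', ht', h'⟩
    refine ⟨hL.add _ hy _ hy', t + t', add_nonneg ht ht', ?_⟩
    have := hL.add _ h _ h'
    convert this using 1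
    module
  · rintro y ⟨hy, t, ht, h⟩ s hs
    refine ⟨hL.smul _ hy s hs, s * t, mul_nonneg hs ht, ?_⟩
    have := hL.smul _ h s hs
    convert this using 1
    module
  · rintro y hy z hz ⟨_, t, ht, h⟩
    refine ⟨hy, t, ht, ?_⟩
    have := hL.add _ h _ hz
    convert this using 1
    module

theorem mem_Fa (hL : IsCone L) {x : K} (hx : x ∈ L) : x ∈ Fa L x :=
  ⟨hx, 1, zero_le_one, by simpa using hL.zero⟩

theorem Fa_sub (hF : Fc L F) {x : K} (hx : x ∈ F) : Fa L x ⊆ F := by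
  rintro y ⟨hy, t, ht, h⟩
  exact hF.ext y hy _ h (by rw [add_sub_cancel]; exact hF.smul x hx t ht)

/-- one may take `t` positive (and as large as one likes) in `Fa` -/
theorem Fa_pos (hL : IsCone L) {x y : K} (hx : x ∈ L) (hy : y ∈ Fa L x) :
    ∃ t : ℝ, 0 < t ∧ ∀ s, t ≤ s → s • x - y ∈ L := by
  obtain ⟨hy, t, ht, h⟩ := hy
  refine ⟨t + 1, by linarith, fun s hs => ?_⟩
  have := hL.add _ h _ (hL.smul _ hx (s - t) (by linarith))
  convert this using 1
  module

theorem Fa_in (hF : Fc L F) {x : K} (hx : x ∈ F) : Fa F x = Fa L x := by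
  ext y
  constructor
  · rintro ⟨hy, t, ht, h⟩
    exact ⟨hF.sub hy, t, ht, hF.sub h⟩
  · rintro ⟨hy, t, ht, h⟩
    have h1 : y + (t • x - y) ∈ F := by rw [add_sub_cancel]; exact hF.smul x hx t ht
    exact ⟨hF.ext _ hy _ h h1, t, ht, hF.ext' hy h h1⟩

theorem Fc.exists_sub (hF : Fc L F) {x : K} (hx : x ∈ Submodule.span ℝ F) :
    ∃ a ∈ F, ∃ b ∈ F, x = a - b := by
  induction hx using Submodule.span_induction with
  | mem x h => exact ⟨x, h, 0, hF.zero, by simp⟩
  | zero => exact ⟨0, hF.zero, 0, hF.zero, by simp⟩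
  | add x y _ _ hx hy =>
    obtain ⟨a, ha, b, hb, rfl⟩ := hx
    obtain ⟨c, hc, d, hd, rfl⟩ := hy
    exact ⟨a + c, hF.add _ ha _ hc, b + d, hF.add _ hb _ hd, by abel⟩
  | smul t x _ hx =>
    obtain ⟨a, ha, b, hb, rfl⟩ := hx
    rcases le_total 0 t with ht | ht
    · exact ⟨t • a, hF.smul _ ha _ ht, t • b, hF.smul _ hb _ ht, by module⟩
    · exact ⟨(-t) • b, hF.smul _ hb _ (by linarith), (-t) • a, hF.smul _ ha _ (by linarith),
        by module⟩

theorem Fc.mem_of_span (hF : Fc L F) {x : K} (hx : x ∈ L) (h : x ∈ Submodule.span ℝ F) :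
    x ∈ F := by
  obtain ⟨a, ha, b, hb, rfl⟩ := hF.exists_sub h
  exact hF.ext _ hx b (hF.sub hb) (by simpa using ha)

theorem Fc.eq_inter (hF : Fc L F) : F = L ∩ (Submodule.span ℝ F : Set K) :=
  Set.Subset.antisymm (fun _ hx => ⟨hF.sub hx, Submodule.subset_span hx⟩)
    fun _ hx => hF.mem_of_span hx.1 hx.2

variable [FiniteDimensional ℝ K]

theorem dm_mono (h : F ⊆ G) : dm F ≤ dm G :=
  Submodule.finrank_mono (Submodule.span_mono h)

theorem Fc.eq_of_dm (hF : Fc L F) (hG : Fc L G) (h : F ⊆ G) (hd : dm G ≤ dm F) : F = G := by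
  have hs : Submodule.span ℝ F = Submodule.span ℝ G :=
    Submodule.eq_of_le_of_finrank_le (Submodule.span_mono h) hd
  rw [hF.eq_inter, hG.eq_inter, hs]

theorem Fc.dm_lt (hF : Fc L F) (hG : Fc L G) (h : F ⊆ G) (hne : F ≠ G) : dm F < dm G := by
  by_contra hc
  exact hne (hF.eq_of_dm hG h (not_lt.1 hc))

theorem Fc.closed (hL : IsCone L) (hF : Fc L F) : IsClosed F := by
  rw [hF.eq_inter]
  exact hL.closed.inter (Submodule.closed_of_finiteDimensional _)

theorem Fc.isCone (hL : IsCone L) (hF : Fc L F) : IsCone F :=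
  ⟨hF.closed hL, hF.zero, hF.add, hF.smul, fun x hx hx' =>
    hL.pointed x (hF.sub hx) (hF.sub hx')⟩

omit [FiniteDimensional ℝ K] in
theorem dm_zero : dm ({0} : Set K) = 0 := by
  simp [dm]

theorem dm_eq_zero (h : dm F = 0) {x : K} (hx : x ∈ F) : x = 0 := by
  have h1 : Submodule.span ℝ F = ⊥ := Submodule.finrank_eq_zero.1 h
  have := Submodule.subset_span (R := ℝ) hx
  rw [h1] at this
  simpa using this

theorem dm_pos {x : K} (hx : x ∈ F) (h : x ≠ 0) : 0 < dm F := by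
  rcases Nat.eq_zero_or_pos (dm F) with h0 | h0
  · exact absurd (dm_eq_zero h0 hx) h
  · exact h0

/-- a face has a generator (an element of the relative interior) -/
theorem Fc.exists_gen (hL : IsCone L) (hF : Fc L F) : ∃ x ∈ F, Fa L x = F := by
  obtain ⟨b, hbF, hb⟩ : ∃ b : Finset K, (b : Set K) ⊆ F ∧
      Submodule.span ℝ (b : Set K) = Submodule.span ℝ F := by
    obtain ⟨b, hb, hs, hli⟩ := exists_linearIndependent ℝ F
    have hfin : b.Finite := hli.setFinite
    exact ⟨hfin.toFinset, by simpa using hb, by simpa using hs⟩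
  classical
  have hx : ∑ y ∈ b, y ∈ F := hF.sum b id fun i hi => hbF hi
  refine ⟨∑ y ∈ b, y, hx, Set.Subset.antisymm (Fa_sub hF hx) fun y hy => ⟨hF.sub hy, ?_⟩⟩
  have hy' : y ∈ Submodule.span ℝ (b : Set K) := hb ▸ Submodule.subset_span hy
  obtain ⟨c, hc⟩ := Submodule.mem_span_finset.1 hy'
  refine ⟨∑ i ∈ b, |c i|, Finset.sum_nonneg fun i _ => abs_nonneg _, ?_⟩
  have h1 : (∑ i ∈ b, |c i|) • ∑ y ∈ b, y - y = ∑ j ∈ b, ((∑ i ∈ b, |c i|) - c j) • j := by
    rw [Finset.smul_sum, ← hc.2, ← Finset.sum_sub_distrib]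
    exact Finset.sum_congr rfl fun j _ => by rw [sub_smul]
  rw [h1]
  refine hL.sum _ _ fun j hj => hL.smul _ (hF.sub (hbF hj)) _ ?_
  have : |c j| ≤ ∑ i ∈ b, |c i| :=
    Finset.single_le_sum (f := fun i => |c i|) (fun i _ => abs_nonneg _) hj
  have h2 := le_abs_self (c j)
  linarith

omit [FiniteDimensional ℝ K] in
/-- from a generator one can go in every direction of the span -/
theorem exists_eps (hL : IsCone L) (hF : Fc L F) {x v : K} (hx : Fa L x = F) (hxL : x ∈ L)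
    (hv : v ∈ Submodule.span ℝ F) :
    ∃ ε : ℝ, 0 < ε ∧ ∀ s : ℝ, |s| ≤ ε → x + s • v ∈ F := by
  have hxF : x ∈ F := hx ▸ mem_Fa hL hxL
  have key : ∀ w ∈ Submodule.span ℝ F, ∃ ε : ℝ, 0 < ε ∧ ∀ s : ℝ, 0 ≤ s → s ≤ ε →
      x + s • w ∈ F := by
    intro w hw
    obtain ⟨a, ha, b, hb, rfl⟩ := hF.exists_sub hw
    obtain ⟨t, ht, h⟩ := Fa_pos hL hxL (hx.symm ▸ hb : b ∈ Fa L x)
    refine ⟨t⁻¹, inv_pos.2 ht, fun s hs hst => ?_⟩
    rcases eq_or_lt_of_le hs with h0 | h0
    · simpa [← h0] using hxF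
    · have h1 := h s⁻¹ ((le_inv_comm₀ ht h0).2 hst)
      have h2 := hL.smul _ h1 s hs
      rw [smul_sub, smul_smul, mul_inv_cancel₀ h0.ne', one_smul] at h2
      have h3 : x - s • b ∈ F := hF.ext _ h2 (s • b) (hF.sub (hF.smul _ hb s hs)) (by simpa using hxF)
      have h4 := hF.add _ h3 _ (hF.smul _ ha s hs)
      convert h4 using 1
      module
  obtain ⟨ε₁, h1, h1'⟩ := key v hv
  obtain ⟨ε₂, h2, h2'⟩ := key (-v) (neg_mem hv)
  refine ⟨min ε₁ ε₂, lt_min h1 h2, fun s hs => ?_⟩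
  rcases le_total 0 s with h0 | h0
  · exact h1' s h0 (by rw [abs_of_nonneg h0] at hs; exact hs.trans (min_le_left _ _))
  · have := h2' (-s) (by linarith) (by
      rw [abs_of_nonpos h0] at hs; exact hs.trans (min_le_right _ _))
    simpa using this

omit [FiniteDimensional ℝ K] in
theorem interior_add (hL : IsCone L) {h y : K} (hh : h ∈ interior L) (hy : y ∈ L) :
    h + y ∈ interior L := by
  rw [mem_interior_iff_mem_nhds] at hh ⊢
  have h1 : (fun z => z - y) ⁻¹' L ∈ nhds (h + y) := by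
    apply (continuous_id.sub continuous_const).continuousAt.preimage_mem_nhds
    simpa using hh
  filter_upwards [h1] with z hz
  have := hL.add _ hz _ hy
  simpa using this

omit [FiniteDimensional ℝ K] in
theorem interior_smul (hL : IsCone L) {h : K} (hh : h ∈ interior L) {t : ℝ} (ht : 0 < t) :
    t • h ∈ interior L := by
  rw [mem_interior_iff_mem_nhds] at hh ⊢
  have h1 : (fun z => t⁻¹ • z) ⁻¹' L ∈ nhds (t • h) := by
    apply (continuous_const_smul t⁻¹).continuousAt.preimage_mem_nhds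
    simpa [smul_smul, inv_mul_cancel₀ ht.ne'] using hh
  filter_upwards [h1] with z hz
  have := hL.smul _ hz t ht.le
  simpa [smul_smul, mul_inv_cancel₀ ht.ne'] using this

omit [FiniteDimensional ℝ K] in
/-- an interior point minus a small multiple of any vector -/
theorem interior_eps {h : K} (hh : h ∈ interior L) (v : K) :
    ∃ ε : ℝ, 0 < ε ∧ ∀ s : ℝ, |s| ≤ ε → h + s • v ∈ L := by
  rw [mem_interior_iff_mem_nhds] at hh
  have h1 : (fun s : ℝ => h + s • v) ⁻¹' L ∈ nhds (0 : ℝ) := by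
    apply Continuous.continuousAt (by fun_prop) |>.preimage_mem_nhds
    simpa using hh
  obtain ⟨ε, hε, hb⟩ := Metric.mem_nhds_iff.1 h1
  refine ⟨ε / 2, by linarith, fun s hs => hb ?_⟩
  simp only [Metric.mem_ball, dist_zero_right, Real.norm_eq_abs]
  linarith

omit [FiniteDimensional ℝ K] in
theorem interior_Fa {h : K} (hh : h ∈ interior L) (hL : IsCone L) : Fa L h = L := by
  refine Set.Subset.antisymm Fa_sub_self fun y hy => ⟨hy, ?_⟩
  obtain ⟨ε, hε, h1⟩ := interior_eps hh (-y)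
  have h2 := hL.smul _ (h1 ε (abs_of_pos hε).le) ε⁻¹ (inv_nonneg.2 hε.le)
  refine ⟨ε⁻¹, inv_nonneg.2 hε.le, ?_⟩
  rw [smul_add, smul_smul, inv_mul_cancel₀ hε.ne', one_smul] at h2
  simpa [sub_eq_add_neg] using h2

omit [FiniteDimensional ℝ K] in
theorem Fa_interior (hL : IsCone L) (hi : (interior L).Nonempty) {x : K} (hx : x ∈ L)
    (h : Fa L x = L) : x ∈ interior L := by
  obtain ⟨k, hk⟩ := hi
  obtain ⟨t, ht, h1⟩ := Fa_pos hL hx (h.symm ▸ interior_subset hk : k ∈ Fa L x)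
  have h2 := interior_add hL hk (h1 t le_rfl)
  rw [add_sub_cancel] at h2
  have h3 := interior_smul hL h2 (inv_pos.2 ht)
  rwa [smul_smul, inv_mul_cancel₀ ht.ne', one_smul] at h3

omit [FiniteDimensional ℝ K] in
theorem interior_iff (hL : IsCone L) (hi : (interior L).Nonempty) {x : K} (hx : x ∈ L) :
    x ∈ interior L ↔ Fa L x = L :=
  ⟨fun h => interior_Fa h hL, Fa_interior hL hi hx⟩

omit [FiniteDimensional ℝ K] in
theorem span_top (hi : (interior L).Nonempty) : Submodule.span ℝ L = ⊤ := by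
  obtain ⟨h, hh⟩ := hi
  refine Submodule.eq_top_iff'.2 fun v => ?_
  obtain ⟨ε, hε, h1⟩ := interior_eps hh v
  have h2 : h + ε • v ∈ Submodule.span ℝ L :=
    Submodule.subset_span (h1 ε (abs_of_pos hε).le)
  have h3 : h ∈ Submodule.span ℝ L := Submodule.subset_span (interior_subset hh)
  have h4 := Submodule.smul_mem _ ε⁻¹ (Submodule.sub_mem _ h2 h3)
  simpa [smul_smul, inv_mul_cancel₀ hε.ne'] using h4

omit [FiniteDimensional ℝ K] in
/-- kernels of elements of the dual cone are faces -/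
theorem Fc.kernel (hL : IsCone L) {y : K} (hy : y ∈ Du L) :
    Fc L {x | x ∈ L ∧ ⟪y, x⟫ = 0} := by
  refine ⟨fun x hx => hx.1, ⟨hL.zero, by simp⟩, ?_, ?_, ?_⟩
  · rintro a ⟨ha, ha'⟩ b ⟨hb, hb'⟩
    exact ⟨hL.add _ ha _ hb, by rw [inner_add_right, ha', hb', add_zero]⟩
  · rintro a ⟨ha, ha'⟩ t ht
    exact ⟨hL.smul _ ha _ ht, by rw [inner_smul_right, ha', mul_zero]⟩
  · rintro a ha b hb ⟨_, h⟩
    refine ⟨ha, ?_⟩
    rw [inner_add_right] at h
    have h1 := hy a ha
    have h2 := hy b hb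
    linarith

omit [FiniteDimensional ℝ K] in
theorem Du_closed : IsClosed (Du L) := by
  have : Du L = ⋂ k ∈ L, {y : K | 0 ≤ ⟪y, k⟫} := by
    ext y; simp [Du]
  rw [this]
  exact isClosed_biInter fun k _ => isClosed_le continuous_const (by fun_prop)

omit [FiniteDimensional ℝ K] in
theorem Du_zero : (0 : K) ∈ Du L := fun k _ => by simp

omit [FiniteDimensional ℝ K] in
theorem Du_add : ∀ x ∈ Du L, ∀ y ∈ Du L, x + y ∈ Du L := fun x hx y hy k hk => by
  rw [inner_add_left]; exact add_nonneg (hx k hk) (hy k hk)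

omit [FiniteDimensional ℝ K] in
theorem Du_smul : ∀ x ∈ Du L, ∀ t : ℝ, 0 ≤ t → t • x ∈ Du L := fun x hx t ht k hk => by
  rw [real_inner_smul_left]; exact mul_nonneg ht (hx k hk)

omit [FiniteDimensional ℝ K] in
theorem Du_cone (hi : (interior L).Nonempty) : IsCone (Du L) := by
  refine ⟨Du_closed, Du_zero, Du_add, Du_smul, fun x hx hx' => ?_⟩
  have h1 : ∀ k ∈ L, ⟪x, k⟫ = 0 := fun k hk => by
    have h1 := hx k hk
    have h2 := hx' k hk
    rw [inner_neg_left] at h2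
    linarith
  have h2 : ∀ k ∈ Submodule.span ℝ L, ⟪x, k⟫ = 0 := by
    intro k hk
    induction hk using Submodule.span_induction with
    | mem k h => exact h1 k h
    | zero => simp
    | add a b _ _ ha hb => rw [inner_add_right, ha, hb, add_zero]
    | smul t a _ ha => rw [inner_smul_right, ha, mul_zero]
  have h3 := h2 x (by rw [span_top hi]; trivial)
  exact inner_self_eq_zero.1 h3

omit [FiniteDimensional ℝ K] in
/-- `⟪y, h⟫ > 0` for `h` in the interior -/
theorem Du_pos {y h : K} (hy : y ∈ Du L) (hy0 : y ≠ 0) (hh : h ∈ interior L) : 0 < ⟪y, h⟫ := by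
  obtain ⟨ε, hε, h1⟩ := interior_eps hh (-y)
  have h2 := hy _ (h1 ε (abs_of_pos hε).le)
  rw [inner_add_right, inner_smul_right, inner_neg_right] at h2
  have h3 : 0 < ⟪y, y⟫ := real_inner_self_pos.2 hy0
  have h4 := mul_pos hε h3
  linarith

omit [FiniteDimensional ℝ K] in
/-- extreme elements of faces -/
theorem Ex.of_face (hF : Fc L F) {x : K} (h : Ex F x) : Ex L x := by
  refine ⟨hF.sub h.1, h.2.1, fun y hy z hz hyz => ?_⟩
  have h1 : y + z ∈ F := hyz ▸ h.1
  exact h.2.2 y (hF.ext _ hy _ hz h1) z (hF.ext' hy hz h1) hyz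

omit [FiniteDimensional ℝ K] in
theorem Ex.to_face (hF : Fc L F) {x : K} (h : Ex L x) (hx : x ∈ F) : Ex F x :=
  ⟨hx, h.2.1, fun y hy z hz hyz => h.2.2 y (hF.sub hy) z (hF.sub hz) hyz⟩

omit [FiniteDimensional ℝ K] in
/-- if `t • x ∈ L`, `x ∈ L`, `x ≠ 0` then `t ≥ 0` -/
theorem IsCone.nonneg (hL : IsCone L) {x : K} (hx : x ∈ L) (h0 : x ≠ 0) {t : ℝ}
    (h : t • x ∈ L) : 0 ≤ t := by
  by_contra hc
  have hc' : 0 < -t := by linarith [not_le.1 hc]
  have h1 := hL.smul _ h (-t)⁻¹ (inv_nonneg.2 hc'.le)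
  rw [smul_smul] at h1
  have h2 : (-t)⁻¹ * t = -1 := by
    have h3 : t ≠ 0 := fun h3 => by rw [h3] at hc'; simp at hc'
    rw [inv_neg, neg_mul, inv_mul_cancel₀ h3]
  rw [h2] at h1
  exact h0 (hL.pointed x hx (by simpa using h1))

omit [FiniteDimensional ℝ K] in
theorem Ex.Fa_eq (hL : IsCone L) {x : K} (h : Ex L x) : Fa L x = Ry x := by
  ext y
  constructor
  · rintro ⟨hy, t, ht, h1⟩
    obtain ⟨t', ht', h1'⟩ := Fa_pos hL h.1 ⟨hy, t, ht, h1⟩
    have h2 := h1' t' le_rfl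
    obtain ⟨s, hs⟩ := h.2.2 (t'⁻¹ • y) (hL.smul _ hy _ (inv_nonneg.2 ht'.le))
      (t'⁻¹ • (t' • x - y)) (hL.smul _ h2 _ (inv_nonneg.2 ht'.le)) (by
        rw [← smul_add, add_sub_cancel, smul_smul, inv_mul_cancel₀ ht'.ne', one_smul])
    have h3 : y = (t' * s) • x := by
      rw [← smul_smul, ← hs, smul_smul, mul_inv_cancel₀ ht'.ne', one_smul]
    exact ⟨t' * s, hL.nonneg h.1 h.2.1 (h3 ▸ hy), h3⟩
  · rintro ⟨t, ht, rfl⟩
    exact ⟨hL.smul _ h.1 t ht, t, ht, by simpa using hL.zero⟩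

omit [FiniteDimensional ℝ K] in
theorem Ex.face (hL : IsCone L) {x : K} (h : Ex L x) : Fc L (Ry x) :=
  h.Fa_eq hL ▸ Fa_face hL h.1

omit [FiniteDimensional ℝ K] in
theorem dm_Ry {x : K} (h : x ≠ 0) : dm (Ry x) = 1 := by
  have h1 : Submodule.span ℝ (Ry x) = Submodule.span ℝ {x} := by
    apply le_antisymm
    · rw [Submodule.span_le]
      rintro y ⟨t, _, rfl⟩
      exact Submodule.smul_mem _ _ (Submodule.mem_span_singleton_self x)
    · rw [Submodule.span_le]
      rintro y rfl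
      exact Submodule.subset_span ⟨1, zero_le_one, by simp⟩
  rw [dm, h1]
  exact finrank_span_singleton h

omit [FiniteDimensional ℝ K] in
theorem Ex.dm_Fa (hL : IsCone L) {x : K} (h : Ex L x) : dm (Fa L x) = 1 := by
  rw [h.Fa_eq hL]
  exact dm_Ry h.2.1

/-- an element of a face of dimension at most one is extreme -/
theorem Ex.of_dm (hF : Fc L F) (hd : dm F ≤ 1) {x : K} (hx : x ∈ F) (h0 : x ≠ 0) : Ex L x := by
  refine ⟨hF.sub hx, h0, fun y hy z hz hyz => ?_⟩
  have hyF : y ∈ F := hF.ext _ hy _ hz (hyz ▸ hx)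
  have h1 : Submodule.span ℝ {x} = Submodule.span ℝ F := by
    apply Submodule.eq_of_le_of_finrank_le
    · exact Submodule.span_mono (by simpa using hx)
    · rw [finrank_span_singleton h0]
      exact hd
  have h2 : y ∈ Submodule.span ℝ {x} := h1 ▸ Submodule.subset_span hyF
  obtain ⟨t, ht⟩ := Submodule.mem_span_singleton.1 h2
  exact ⟨t, ht.symm⟩

omit [FiniteDimensional ℝ K] in
/-- a multiple of an extreme element -/
theorem Ex.smul (hL : IsCone L) {x : K} (h : Ex L x) {t : ℝ} (ht : 0 < t) : Ex L (t • x) := by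
  refine ⟨hL.smul _ h.1 t ht.le, smul_ne_zero ht.ne' h.2.1, fun y hy z hz hyz => ?_⟩
  obtain ⟨s, hs⟩ := h.2.2 (t⁻¹ • y) (hL.smul _ hy _ (inv_nonneg.2 ht.le))
    (t⁻¹ • z) (hL.smul _ hz _ (inv_nonneg.2 ht.le)) (by
      rw [← smul_add, hyz, smul_smul, inv_mul_cancel₀ ht.ne', one_smul])
  refine ⟨s, ?_⟩
  have : y = t • (t⁻¹ • y) := by rw [smul_smul, mul_inv_cancel₀ ht.ne', one_smul]
  rw [this, hs, smul_smul, smul_smul, mul_comm]

omit [FiniteDimensional ℝ K] in
/-- two elements of `L` whose difference is in `A`, one of them extreme: factor one -/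
theorem eq_of_smul_sub {A : Submodule ℝ K} {b b' : K} {s : ℝ} (hb : b ∉ A) (h : b' = s • b)
    (hA : b - b' ∈ A) : b = b' := by
  have h1 : (1 - s) • b ∈ A := by
    rw [sub_smul, one_smul, ← h]; exact hA
  have h2 : 1 - s = 0 := by
    by_contra hc
    exact hb ((Submodule.smul_mem_iff _ hc).1 h1)
  have h3 : s = 1 := by linarith
  rw [h, h3, one_smul]

end Cone

end D1

end TightRP
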