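import Mathlib

/-!
# MP_7cdc3e_gt, section T5 (= D1): convex cones in dimension six, definitions and basic lemmas

Functionals on the finite-dimensional space `K` are written as vectors, by the inner product.
-/

set_option autoImplicit false

open scoped RealInnerProductSpace
open Module

namespace TightRP

namespace D1

section Defs

variable {K : Type} [NormedAddCommGroup K] [InnerProductSpace ℝ K]

/-- closed pointed convex cone -/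
structure IsCone (L : Set K) : Prop where
  closed : IsClosed L
  zero : (0 : K) ∈ L
  add : ∀ x ∈ L, ∀ y ∈ L, x + y ∈ L
  smul : ∀ x ∈ L, ∀ t : ℝ, 0 ≤ t → t • x ∈ L
  pointed : ∀ x, x ∈ L → -x ∈ L → x = 0

/-- `F` is a face of the cone `L` -/
structure Fc (L F : Set K) : Prop where
  sub : F ⊆ L
  zero : (0 : K) ∈ F
  add : ∀ x ∈ F, ∀ y ∈ F, x + y ∈ F
  smul : ∀ x ∈ F, ∀ t : ℝ, 0 ≤ t → t • x ∈ F
  ext : ∀ x ∈ L, ∀ y ∈ L, x + y ∈ F → x ∈ F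

/-- dimension of the span -/
noncomputable def dm (F : Set K) : ℕ := finrank ℝ (Submodule.span ℝ F)

/-- the smallest face of `L` which contains `x` -/
def Fa (L : Set K) (x : K) : Set K := {y | y ∈ L ∧ ∃ t : ℝ, 0 ≤ t ∧ t • x - y ∈ L}

/-- `x` spans an extreme ray of `L` -/
def Ex (L : Set K) (x : K) : Prop :=
  x ∈ L ∧ x ≠ 0 ∧ ∀ y ∈ L, ∀ z ∈ L, y + z = x → ∃ t : ℝ, y = t • x

/-- the dual cone -/
def Du (L : Set K) : Set K := {y | ∀ k ∈ L, 0 ≤ ⟪y, k⟫}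

/-- all nonzero elements of `F` are in `Z` -/
def Thin (Z F : Set K) : Prop := ∀ x ∈ F, x ≠ 0 → x ∈ Z

/-- a line: a face of dimension three, not thin, all of whose proper faces are thin -/
structure Line (L Z F : Set K) : Prop where
  face : Fc L F
  dim : dm F = 3
  nthin : ¬ Thin Z F
  thin : ∀ G, Fc L G → G ⊆ F → G ≠ F → Thin Z G

/-- `F` and `R` have only `0` in common -/
def Dis (F R : Set K) : Prop := ∀ x ∈ F, x ∈ R → x = 0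

/-- the cone generated by finitely many elements -/
def Cn {n : ℕ} (v : Fin n → K) : Set K :=
  {x | ∃ t : Fin n → ℝ, (∀ i, 0 ≤ t i) ∧ x = ∑ i, t i • v i}

/-- the ray of `v` -/
def Ry (v : K) : Set K := {x | ∃ t : ℝ, 0 ≤ t ∧ x = t • v}

/-- sum of two sets -/
def Su (G H : Set K) : Set K := {x | ∃ g ∈ G, ∃ h ∈ H, x = g + h}

/-- the axioms (`L` = cell cone, `E` = closed set of evaluations, `Z` = rank one elements) -/
structure Sys (L E Z : Set K) : Prop where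
  dim : finrank ℝ K = 6
  cone : IsCone L
  int : (interior L).Nonempty
  Ecl : IsClosed E
  Esm : ∀ e ∈ E, ∀ t : ℝ, 0 ≤ t → t • e ∈ E
  mem : ∀ k, k ∈ L ↔ ∀ e ∈ E, 0 ≤ ⟪e, k⟫
  Zsub : ∀ g ∈ Z, g ∈ L ∧ g ≠ 0
  a1 : ∀ r ∈ Z, ∀ p ∈ L, p ≠ 0 → (∀ e ∈ E, ⟪e, r⟫ = 0 → ⟪e, p⟫ = 0) → p ∈ Z
  a2 : ∀ g ∈ Z, ∀ g' ∈ Z, g + g' ∉ interior L
  a3 : ∀ e ∈ E, e ≠ 0 → ∃ F, Line L Z F ∧ ∀ x ∈ F, ⟪e, x⟫ = 0
  a4 : ∀ F, Fc L F → ¬ Thin Z F → ∃ G, G ⊆ F ∧ Line L Z G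
  a5 : ∀ F G, Line L Z F → Line L Z G → ∃ x ∈ F, x ∈ G ∧ x ≠ 0
  a6 : ∀ p ∈ L, p ∉ interior L → p ≠ 0 → p ∉ Z → ∀ y ∈ Du L, ⟪y, p⟫ = 0 → y ∈ E
  a7 : ∀ R, Fc L R → Thin Z R → dm R ≤ 3 → ∃ e ∈ E, ∀ x ∈ R, x ≠ 0 → 0 < ⟪e, x⟫
  a8 : ∀ F, Fc L F → ¬ Thin Z F → F ≠ L → dm F = 4 → ∃ G G', Line L Z G ∧ Line L Z G' ∧
    G ⊆ F ∧ G' ⊆ F ∧ G ≠ G' ∧ ∀ H, Line L Z H → H ⊆ F → H = G ∨ H = G'
  a10 : ∀ g ∈ L, g ≠ 0 → ∀ m, (∀ e ∈ E, 0 < ⟪e, g⟫ → 0 ≤ ⟪e, m⟫) → m ∈ L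
  a11 : ∀ Y, Fc (Du L) Y → dm Y ≤ 2 → Y ⊆ E

/-- maximal thin face `≠ 0` -/
structure MaxT (L Z R : Set K) : Prop where
  face : Fc L R
  thin : Thin Z R
  ne : ∃ x ∈ R, x ≠ 0
  max : ∀ R', Fc L R' → Thin Z R' → R ⊆ R' → R' = R

/-- Step A: the face `Y` of the dual cone attached to `R` -/
structure YR (L E R Y : Set K) : Prop where
  face : Fc (Du L) Y
  orth : ∀ y ∈ Y, ∀ x ∈ R, ⟪y, x⟫ = 0
  prop : ∀ Y', Fc (Du L) Y' → Y' ⊆ Y → Y' ≠ Y → Y' ⊆ E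
  three : 3 ≤ dm Y
  ker : ∀ p ∈ Y, Fa (Du L) p = Y → ∀ x ∈ L, ⟪p, x⟫ = 0 → x ∈ R

/-- Steps A and B: the section property.  `A` is three-dimensional, `L ∩ A = R` and every line
disjoint from `R` is a section of `K → K / A` over the image of `L` -/
structure SecP (L Z R : Set K) (A : Submodule ℝ K) : Prop where
  thin : MaxT L Z R
  mem : ∀ x ∈ L, x ∈ A ↔ x ∈ R
  fin : finrank ℝ A = 3
  sec : ∀ F, Line L Z F → Dis F R → ∀ x ∈ L, ∃ f ∈ F, x - f ∈ A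
  ind : ∀ F, Line L Z F → Dis F R → ∀ x ∈ Submodule.span ℝ F, x ∈ A → x = 0
  exi : ∃ F, Line L Z F ∧ Dis F R
  y0 : dm R = 2 → ∃ y ∈ A, y ∉ Submodule.span ℝ R ∧
    ∀ p ∈ Du L, (∀ x ∈ R, ⟪p, x⟫ = 0) → 0 ≤ ⟪p, y⟫

/-- the part of `L` over the ray of `b` (the face `Φ_b`) -/
def Ph (L : Set K) (A : Submodule ℝ K) (b : K) : Set K :=
  {x | x ∈ L ∧ ∃ t : ℝ, 0 ≤ t ∧ x - t • b ∈ A}

/-- Step C: the properties of `Φ_b` -/
structure PhiP (L Z R : Set K) (A : Submodule ℝ K) (b : K) : Prop where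
  face : Fc L (Ph L A b)
  sub : R ⊆ Ph L A b
  mem : b ∈ Ph L A b
  notA : b ∉ A
  nthin : ¬ Thin Z (Ph L A b)
  ne : Ph L A b ≠ L
  dim : dm (Ph L A b) ≤ 4
  spn : ∀ x ∈ Submodule.span ℝ (Ph L A b), ∃ t : ℝ, x - t • b ∈ A
  lin : ∀ G, Line L Z G → G ⊆ Ph L A b → b ∈ G ∧ ∃ x ∈ G, x ∈ R ∧ x ≠ 0
  gen : ∀ r ∈ R, Fa L r = R → b + r ∉ Z

/-- a break: two lines disjoint from `R` with different extreme elements `b`, `b'` over the same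
ray of `K / A` -/
structure Brk (L Z R : Set K) (A : Submodule ℝ K) (F F' : Set K) (b b' : K) : Prop where
  lF : Line L Z F
  dF : Dis F R
  lF' : Line L Z F'
  dF' : Dis F' R
  bF : b ∈ F
  bF' : b' ∈ F'
  eb : Ex L b
  eb' : Ex L b'
  sub : b - b' ∈ A
  ne : b ≠ b'

/-- the face of a simplicial cone with the vertices in `I` -/
def CnI {n : ℕ} (v : Fin n → K) (I : Finset (Fin n)) : Set K :=
  {x | ∃ t : Fin n → ℝ, (∀ i, 0 ≤ t i) ∧ (∀ i, i ∉ I → t i = 0) ∧ x = ∑ i, t i • v i}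

/-- all thin faces are rays (or zero) -/
def RayH (L Z : Set K) : Prop := ∀ R, Fc L R → Thin Z R → dm R ≤ 1

/-- `p` completes `g` to a basis of the plane `P_b = span Φ_b ∩ A` (in the case of rays) -/
structure Pb (L : Set K) (A : Submodule ℝ K) (g b p : K) : Prop where
  pA : p ∈ A
  li : LinearIndependent ℝ ![g, p]
  dif : ∀ x ∈ L, x - b ∈ A → ∃ s t : ℝ, x - b = s • g + t • p

end Defs

end D1

end TightRP
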