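import Pool.Agent.Lib.MP_7cdc3e_gt.D1.Spec

/-!
# MP_7cdc3e_gt, D1: the functional equation
-/

set_option autoImplicit false

namespace TightRP

namespace D1

/-- **Feq** -/
theorem tFeq (hfre : S_Fre) : S_Feq := by
  intro f₁ f₂ f₃ f₄ a b c a' b' c' hf hb hb' h
  refine hfre f₁ hf fun x h' k l => ?_
  have key : ∀ X Y P Q : ℝ, a * X + b * Y + c = P → a' * X + b' * Y + c' = Q →
      f₁ X + f₂ Y + f₃ P + f₄ Q = 0 := by
    intro X Y P Q hP hQ
    subst hP
    subst hQ
    exact h X Y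
  obtain ⟨k', hk⟩ : ∃ k', b * k' = -(a * k) := ⟨-(a * k) / b, by field_simp⟩
  obtain ⟨l', hl⟩ : ∃ l', b' * l' = -(a' * l) := ⟨-(a' * l) / b', by field_simp⟩
  have e000 := key x 0 (a*x+c) (a'*x+c') (by ring) (by ring)
  have e100 := key (x+h') 0 (a*x+c+a*h') (a'*x+c'+a'*h') (by ring) (by ring)
  have e010 := key (x+k) k' (a*x+c) (a'*x+c'+(a'*k+b'*k')) (by linear_combination hk) (by ring)
  have e001 := key (x+l) l' (a*x+c+(a*l+b*l')) (a'*x+c') (by ring) (by linear_combination hl)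
  have e110 := key (x+h'+k) k' (a*x+c+a*h') (a'*x+c'+a'*h'+(a'*k+b'*k'))
    (by linear_combination hk) (by ring)
  have e101 := key (x+h'+l) l' (a*x+c+a*h'+(a*l+b*l')) (a'*x+c'+a'*h')
    (by ring) (by linear_combination hl)
  have e011 := key (x+k+l) (k'+l') (a*x+c+(a*l+b*l')) (a'*x+c'+(a'*k+b'*k'))
    (by linear_combination hk) (by linear_combination hl)
  have e111 := key (x+h'+k+l) (k'+l') (a*x+c+a*h'+(a*l+b*l')) (a'*x+c'+a'*h'+(a'*k+b'*k'))
    (by linear_combination hk) (by linear_combination hl)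
  linear_combination e111 - e110 - e101 - e011 + e100 + e010 + e001 - e000

end D1

end TightRP
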