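import Pool.Agent.Lib.MP_7cdc3e_gt.D1.Spec

/-!
# MP_7cdc3e_gt, D1: four extreme rays of a line (helper18)
-/

set_option autoImplicit false

open scoped RealInnerProductSpace
open Module

namespace TightRP

namespace D1

section Fou

variable {K : Type} [NormedAddCommGroup K] [InnerProductSpace ℝ K] [FiniteDimensional ℝ K]

omit [FiniteDimensional ℝ K] in
private theorem Fou_li {a b c : K} (h : LinearIndependent ℝ ![a, b, c]) {α β γ : ℝ}
    (hz : α • a + β • b + γ • c = 0) : α = 0 ∧ β = 0 ∧ γ = 0 := by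
  have h1 := Fintype.linearIndependent_iff.1 h ![α, β, γ] (by
    rw [Fin.sum_univ_three]
    simpa using hz)
  exact ⟨h1 0, h1 1, h1 2⟩

omit [FiniteDimensional ℝ K] in
/-- non proportional in both directions -/
private theorem Fou_sym {x y : K} (hx : x ≠ 0) (h : ∀ s : ℝ, y ≠ s • x) : ∀ s : ℝ, x ≠ s • y := by
  intro s hs
  have hs0 : s ≠ 0 := by
    rintro rfl
    exact hx (by rw [hs, zero_smul])
  exact h s⁻¹ (by conv_rhs => rw [hs, smul_smul, inv_mul_cancel₀ hs0, one_smul])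

/-- an extreme element outside of a small submodule -/
private theorem Fou_ex (hE : S_Ext) {L F : Set K} (hL : IsCone L) (hF : Fc L F) (hd : dm F = 3)
    (W : Submodule ℝ K) (hW : finrank ℝ W ≤ 2) : ∃ x ∈ F, Ex L x ∧ x ∉ W := by
  by_contra hc
  push Not at hc
  have h1 : F ⊆ (W : Set K) := hE K L hL F hF W W.zero_mem (fun x hx y hy => W.add_mem hx hy)
    (fun x hx hxF => hc x hxF hx)
  have h2 : Submodule.span ℝ F ≤ W := Submodule.span_le.2 h1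
  have h3 := Submodule.finrank_mono h2
  unfold dm at hd
  omega

/-- the cone of three independent vectors is not a line -/
private theorem Fou_nsub {L E Z F : Set K} (h : Sys L E Z) (hR : RayH L Z) (hF : Line L Z F)
    {b b₂ b₃ : K} (hb : b ∈ F) (hb₂ : b₂ ∈ F) (hb₃ : b₃ ∈ F)
    (hli : LinearIndependent ℝ ![b, b₂, b₃]) : ¬ F ⊆ Cn ![b, b₂, b₃] := by
  intro hsub
  have hL := h.cone
  have hC : ∀ x ∈ F, ∃ r s t : ℝ, 0 ≤ r ∧ 0 ≤ s ∧ 0 ≤ t ∧ x = r • b + s • b₂ + t • b₃ := by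
    intro x hx
    obtain ⟨c, hc, hx'⟩ := hsub hx
    refine ⟨c 0, c 1, c 2, hc 0, hc 1, hc 2, ?_⟩
    rw [hx', Fin.sum_univ_three]
    rfl
  have hH : Fc F {x | ∃ r s : ℝ, 0 ≤ r ∧ 0 ≤ s ∧ x = r • b + s • b₂} := by
    refine ⟨?_, ⟨0, 0, le_rfl, le_rfl, by simp⟩, ?_, ?_, ?_⟩
    · rintro x ⟨r, s, hr, hs, rfl⟩
      exact hF.face.add _ (hF.face.smul _ hb _ hr) _ (hF.face.smul _ hb₂ _ hs)
    · rintro x ⟨r, s, hr, hs, rfl⟩ y ⟨r', s', hr', hs', rfl⟩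
      exact ⟨r + r', s + s', add_nonneg hr hr', add_nonneg hs hs', by module⟩
    · rintro x ⟨r, s, hr, hs, rfl⟩ t ht
      exact ⟨t * r, t * s, mul_nonneg ht hr, mul_nonneg ht hs, by module⟩
    · rintro x hx y hy ⟨r, s, hr, hs, hxy⟩
      obtain ⟨r₁, s₁, t₁, hr₁, hs₁, ht₁, hx'⟩ := hC x hx
      obtain ⟨r₂, s₂, t₂, hr₂, hs₂, ht₂, hy'⟩ := hC y hy
      have h1 : (r₁ + r₂ - r) • b + (s₁ + s₂ - s) • b₂ + (t₁ + t₂) • b₃ = 0 := by
        have h2 : r₁ • b + s₁ • b₂ + t₁ • b₃ + (r₂ • b + s₂ • b₂ + t₂ • b₃) -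
            (r • b + s • b₂) = 0 := by
          rw [← hx', ← hy', hxy, sub_self]
        rw [← h2]
        module
      have h2 := (Fou_li hli h1).2.2
      have h3 : t₁ = 0 := by linarith
      refine ⟨r₁, s₁, hr₁, hs₁, ?_⟩
      rw [hx', h3]
      module
  have hHL := hF.face.trans hH
  have hne : {x | ∃ r s : ℝ, 0 ≤ r ∧ 0 ≤ s ∧ x = r • b + s • b₂} ≠ F := by
    intro heq
    rw [← heq] at hb₃
    obtain ⟨r, s, _, _, hb₃'⟩ := hb₃
    have h1 : r • b + s • b₂ + (-1 : ℝ) • b₃ = 0 := by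
      rw [hb₃']; module
    have h2 := (Fou_li hli h1).2.2
    norm_num at h2
  have h1 := hR.dm_le hF hHL hH.sub hne
  have hb0 : b ≠ 0 := by
    rintro rfl
    have h2 : (1 : ℝ) • (0 : K) + (0 : ℝ) • b₂ + (0 : ℝ) • b₃ = 0 := by simp
    have h3 := (Fou_li hli h2).1
    norm_num at h3
  have hbH : b ∈ {x | ∃ r s : ℝ, 0 ≤ r ∧ 0 ≤ s ∧ x = r • b + s • b₂} :=
    ⟨1, 0, zero_le_one, le_rfl, by simp⟩
  have hb₂H : b₂ ∈ {x | ∃ r s : ℝ, 0 ≤ r ∧ 0 ≤ s ∧ x = r • b + s • b₂} :=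
    ⟨0, 1, le_rfl, zero_le_one, by simp⟩
  have h2 : Submodule.span ℝ {b} =
      Submodule.span ℝ {x | ∃ r s : ℝ, 0 ≤ r ∧ 0 ≤ s ∧ x = r • b + s • b₂} := by
    apply Submodule.eq_of_le_of_finrank_le
    · exact Submodule.span_mono (by simpa using hbH)
    · rw [finrank_span_singleton hb0]
      exact h1
  have h3 : b₂ ∈ Submodule.span ℝ {b} := h2 ▸ Submodule.subset_span hb₂H
  obtain ⟨t, ht⟩ := Submodule.mem_span_singleton.1 h3
  have h4 : t • b + (-1 : ℝ) • b₂ + (0 : ℝ) • b₃ = 0 := by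
    rw [ht]; module
  have h5 := (Fou_li hli h4).2.1
  norm_num at h5

end Fou

theorem tFou (hI : S_In3) (hE : S_Ext) : S_Fou := by
  intro K _ _ _ L E Z F h hR hF b hb hbE
  have hL := h.cone
  have hd := hF.dim
  obtain ⟨b₂, hb₂, hb₂E, hn₂⟩ := Fou_ex hE hL hF.face hd (Submodule.span ℝ {b})
    ((finrank_span_singleton hbE.2.1).le.trans (by norm_num))
  have hfin : finrank ℝ (Submodule.span ℝ ({b, b₂} : Set K)) ≤ 2 := by
    classical
    have h1 := finrank_span_finset_le_card (R := ℝ) (M := K) ({b, b₂} : Finset K)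
    have h2 : ((({b, b₂} : Finset K) : Set K)) = {b, b₂} := by simp
    rw [h2] at h1
    exact h1.trans Finset.card_le_two
  obtain ⟨b₃, hb₃, hb₃E, hn₃⟩ := Fou_ex hE hL hF.face hd (Submodule.span ℝ {b, b₂}) hfin
  have h12 : ∀ s : ℝ, b₂ ≠ s • b := fun s hs =>
    hn₂ (hs ▸ Submodule.smul_mem _ s (Submodule.mem_span_singleton_self b))
  have h13 : ∀ s : ℝ, b₃ ≠ s • b := fun s hs =>
    hn₃ (hs ▸ Submodule.smul_mem _ s (Submodule.subset_span (by simp)))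
  have h23 : ∀ s : ℝ, b₃ ≠ s • b₂ := fun s hs =>
    hn₃ (hs ▸ Submodule.smul_mem _ s (Submodule.subset_span (by simp)))
  have g12 := Fou_sym hbE.2.1 h12
  have g13 := Fou_sym hbE.2.1 h13
  have g23 := Fou_sym hb₂E.2.1 h23
  have hli : LinearIndependent ℝ ![b, b₂, b₃] := hI K L b b₂ b₃ hL hbE hb₂E hb₃E g12 g13 g23
  have hns := Fou_nsub h hR hF hb hb₂ hb₃ hli
  obtain ⟨b₄, hb₄, hb₄E, hn₄⟩ : ∃ x ∈ F, Ex L x ∧ x ∉ Cn ![b, b₂, b₃] := by
    by_contra hc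
    push Not at hc
    refine hns (hE K L hL F hF.face _ ?_ ?_ (fun x hx hxF => hc x hxF hx))
    · exact ⟨fun _ => 0, fun _ => le_rfl, by simp⟩
    · rintro x ⟨c, hc1, hx⟩ y ⟨c', hc1', hy⟩
      refine ⟨fun i => c i + c' i, fun i => add_nonneg (hc1 i) (hc1' i), ?_⟩
      rw [hx, hy, ← Finset.sum_add_distrib]
      exact Finset.sum_congr rfl fun i _ => by rw [add_smul]
  have h4 : ∀ i : Fin 3, ∀ s : ℝ, b₄ ≠ s • (![b, b₂, b₃] : Fin 3 → K) i := by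
    intro i s hs
    have hi : (![b, b₂, b₃] : Fin 3 → K) i ∈ L ∧ (![b, b₂, b₃] : Fin 3 → K) i ≠ 0 := by
      fin_cases i
      · exact ⟨hbE.1, hbE.2.1⟩
      · exact ⟨hb₂E.1, hb₂E.2.1⟩
      · exact ⟨hb₃E.1, hb₃E.2.1⟩
    have hs0 : 0 ≤ s := hL.nonneg hi.1 hi.2 (hs ▸ hb₄E.1)
    refine hn₄ ⟨fun j => if j = i then s else 0, ?_, ?_⟩
    · intro j
      show (0 : ℝ) ≤ if j = i then s else 0
      split_ifs
      · exact hs0
      · exact le_rfl
    · rw [hs]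
      simp only [ite_smul, zero_smul, Finset.sum_ite_eq', Finset.mem_univ, if_true]
  have g14 := Fou_sym hbE.2.1 (h4 0)
  have g24 := Fou_sym hb₂E.2.1 (h4 1)
  have g34 := Fou_sym hb₃E.2.1 (h4 2)
  have hspan : Submodule.span ℝ (Set.range ![b, b₂, b₃]) = Submodule.span ℝ F := by
    apply Submodule.eq_of_le_of_finrank_le
    · apply Submodule.span_mono
      rintro _ ⟨i, rfl⟩
      fin_cases i
      · exact hb
      · exact hb₂
      · exact hb₃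
    · rw [finrank_span_eq_card hli]
      exact hd.le
  have hmem : b₄ ∈ Submodule.span ℝ (Set.range ![b, b₂, b₃]) := hspan ▸ Submodule.subset_span hb₄
  obtain ⟨c, hc⟩ := (Submodule.mem_span_range_iff_exists_fun ℝ).1 hmem
  rw [Fin.sum_univ_three] at hc
  have hc' : b₄ = c 0 • b + c 1 • b₂ + c 2 • b₃ := hc.symm
  have l234 : LinearIndependent ℝ ![b₂, b₃, b₄] := hI K L b₂ b₃ b₄ hL hb₂E hb₃E hb₄E g23 g24 g34
  have l134 : LinearIndependent ℝ ![b, b₃, b₄] := hI K L b b₃ b₄ hL hbE hb₃E hb₄E g13 g14 g34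
  have l124 : LinearIndependent ℝ ![b, b₂, b₄] := hI K L b b₂ b₄ hL hbE hb₂E hb₄E g12 g14 g24
  have e0 : c 0 ≠ 0 := by
    intro h0
    have h1 : c 1 • b₂ + c 2 • b₃ + (-1 : ℝ) • b₄ = 0 := by
      rw [hc', h0]; module
    have := (Fou_li l234 h1).2.2
    norm_num at this
  have e1 : c 1 ≠ 0 := by
    intro h0
    have h1 : c 0 • b + c 2 • b₃ + (-1 : ℝ) • b₄ = 0 := by
      rw [hc', h0]; module
    have := (Fou_li l134 h1).2.2
    norm_num at this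
  have e2 : c 2 ≠ 0 := by
    intro h0
    have h1 : c 0 • b + c 1 • b₂ + (-1 : ℝ) • b₄ = 0 := by
      rw [hc', h0]; module
    have := (Fou_li l124 h1).2.2
    norm_num at this
  refine ⟨b₂, hb₂, b₃, hb₃, b₄, hb₄, hb₂E, hb₃E, hb₄E, g12, g13, g14, g23, g24, g34,
    -((c 0)⁻¹ * c 1), -((c 0)⁻¹ * c 2), (c 0)⁻¹, ?_, ?_, inv_ne_zero e0, ?_⟩
  · exact neg_ne_zero.2 (mul_ne_zero (inv_ne_zero e0) e1)
  · exact neg_ne_zero.2 (mul_ne_zero (inv_ne_zero e0) e2)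
  · rw [hc', smul_add, smul_add, smul_smul (c 0)⁻¹ (c 0), inv_mul_cancel₀ e0]
    module

end D1

end TightRP
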