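import Pool.Agent.Lib.MP_7cdc3e_gt.D1.Bas

/-!
# MP_7cdc3e_gt, D1: first consequences of the axioms (all proved)
-/

set_option autoImplicit false

open scoped RealInnerProductSpace
open Module

namespace TightRP

namespace D1

section SysBasic

variable {K : Type} [NormedAddCommGroup K] [InnerProductSpace ℝ K] [FiniteDimensional ℝ K]
  {L E Z F G : Set K}

omit [FiniteDimensional ℝ K] in
theorem Sys.sub_Du (h : Sys L E Z) : E ⊆ Du L := fun e he k hk => (h.mem k).1 hk e he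

omit [FiniteDimensional ℝ K] in
theorem Sys.E0 (h : Sys L E Z) : (0 : K) ∈ E := by
  obtain ⟨e, he⟩ : E.Nonempty := by
    by_contra hc
    rw [Set.not_nonempty_iff_eq_empty] at hc
    have h1 : ∀ k : K, k ∈ L := fun k => (h.mem k).2 (by simp [hc])
    have h2 : ∀ k : K, k = 0 := fun k => h.cone.pointed k (h1 k) (h1 _)
    have h3 : finrank ℝ K = 0 := by
      have : Subsingleton K := ⟨fun a b => by rw [h2 a, h2 b]⟩
      exact finrank_zero_of_subsingleton
    rw [h.dim] at h3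
    norm_num at h3
  simpa using h.Esm e he 0 le_rfl

omit [FiniteDimensional ℝ K] in
theorem Sys.Du_cone (h : Sys L E Z) : IsCone (Du L) := D1.Du_cone h.int

/-- a nonzero element below a multiple of an element of `Z` is in `Z` -/
theorem Sys.Z_of_Fa (h : Sys L E Z) {g y : K} (hg : g ∈ Z) (hy : y ∈ Fa L g) (h0 : y ≠ 0) :
    y ∈ Z := by
  obtain ⟨hyL, t, ht, h1⟩ := hy
  refine h.a1 g hg y hyL h0 fun e he h2 => ?_
  have h3 := (h.mem _).1 h1 e he
  have h4 := (h.mem _).1 hyL e he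
  rw [inner_sub_right, inner_smul_right, h2, mul_zero] at h3
  linarith

theorem Sys.Z_smul (h : Sys L E Z) {g : K} (hg : g ∈ Z) {t : ℝ} (ht : 0 < t) : t • g ∈ Z :=
  h.Z_of_Fa hg ⟨h.cone.smul _ (h.Zsub g hg).1 t ht.le, t, ht.le, by simpa using h.cone.zero⟩
    (smul_ne_zero ht.ne' (h.Zsub g hg).2)

/-- if `x ∉ Z`, `x ≠ 0` and `x, y ∈ L` then `x + y ∉ Z` -/
theorem Sys.add_notZ (h : Sys L E Z) {x y : K} (hx : x ∈ L) (hy : y ∈ L) (h0 : x ≠ 0)
    (hxZ : x ∉ Z) : x + y ∉ Z := fun hc => by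
  refine hxZ (h.Z_of_Fa hc ⟨hx, 1, zero_le_one, ?_⟩ h0)
  simpa using hy

theorem Sys.thin_Fa (h : Sys L E Z) {x : K} (hx : x ∈ Z) : Thin Z (Fa L x) :=
  fun _ hy h0 => h.Z_of_Fa hx hy h0

theorem Sys.thin_iff (h : Sys L E Z) {x : K} (hx : x ∈ L) (hF : Fa L x = F) (h0 : x ≠ 0) :
    Thin Z F ↔ x ∈ Z := by
  constructor
  · intro h1
    exact h1 x (hF ▸ mem_Fa h.cone hx) h0
  · intro h1
    exact hF ▸ h.thin_Fa h1

theorem Sys.int_notZ (h : Sys L E Z) {x : K} (hx : x ∈ interior L) : x ∉ Z := fun hc =>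
  h.a2 x hc x hc (interior_add h.cone hx (interior_subset hx))

theorem Sys.int_ne (h : Sys L E Z) {x : K} (hx : x ∈ interior L) : x ≠ 0 := by
  rintro rfl
  have h1 : ∀ v : K, v = 0 := by
    have h2 : ∀ v : K, v ∈ L := fun v => by
      obtain ⟨ε, hε, h3⟩ := interior_eps hx v
      have h4 := h.cone.smul _ (h3 ε (abs_of_pos hε).le) ε⁻¹ (inv_nonneg.2 hε.le)
      simpa [smul_smul, inv_mul_cancel₀ hε.ne'] using h4
    exact fun v => h.cone.pointed v (h2 v) (h2 _)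
  have h3 : finrank ℝ K = 0 := by
    have : Subsingleton K := ⟨fun a b => by rw [h1 a, h1 b]⟩
    exact finrank_zero_of_subsingleton
  rw [h.dim] at h3
  norm_num at h3

theorem Sys.not_thin (h : Sys L E Z) : ¬ Thin Z L := fun hc => by
  obtain ⟨x, hx⟩ := h.int
  exact h.int_notZ hx (hc x (interior_subset hx) (h.int_ne hx))

theorem Sys.dm_L (h : Sys L E Z) : dm L = 6 := by
  rw [dm, span_top h.int, finrank_top, h.dim]

/-- a face which contains an interior point is `L` -/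
theorem Sys.eq_of_int (h : Sys L E Z) (hF : Fc L F) {x : K} (hx : x ∈ F) (hi : x ∈ interior L) :
    F = L :=
  Set.Subset.antisymm hF.sub (interior_Fa hi h.cone ▸ Fa_sub hF hx)

theorem Sys.not_int (h : Sys L E Z) (hF : Fc L F) (hne : F ≠ L) {x : K} (hx : x ∈ F) :
    x ∉ interior L := fun hi => hne (h.eq_of_int hF hx hi)

/-- not thin faces have dimension at least three -/
theorem Sys.three_le (h : Sys L E Z) (hF : Fc L F) (hZ : ¬ Thin Z F) : 3 ≤ dm F := by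
  obtain ⟨G, hG, hl⟩ := h.a4 F hF hZ
  rw [← hl.dim]
  exact dm_mono hG

/-- extreme elements are in `Z` -/
theorem Sys.Ex_Z (h : Sys L E Z) {x : K} (hx : Ex L x) : x ∈ Z := by
  by_contra hc
  have h1 : ¬ Thin Z (Fa L x) := fun h2 => hc ((h.thin_iff hx.1 rfl hx.2.1).1 h2)
  have h2 := h.three_le (Fa_face h.cone hx.1) h1
  rw [hx.dm_Fa h.cone] at h2
  norm_num at h2

theorem Line.ne_L (hF : Line L Z F) (h : Sys L E Z) : F ≠ L := fun hc => by
  have h1 := hF.dim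
  rw [hc, h.dm_L] at h1
  norm_num at h1

omit [FiniteDimensional ℝ K] in
theorem Line.exists_ne (hF : Line L Z F) : ∃ x ∈ F, x ∉ Z ∧ x ≠ 0 := by
  by_contra hc
  push Not at hc
  exact hF.nthin fun x hx h0 => by
    by_contra hz
    exact h0 (hc x hx hz)

/-- an element of a line which is not in `Z` generates it -/
theorem Line.gen (hF : Line L Z F) (h : Sys L E Z) {x : K} (hx : x ∈ F) (h0 : x ≠ 0)
    (hZ : x ∉ Z) : Fa L x = F := by
  by_contra hc
  exact hZ (hF.thin _ (Fa_face h.cone (hF.face.sub hx)) (Fa_sub hF.face hx) hc x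
    (mem_Fa h.cone (hF.face.sub hx)) h0)

theorem Sys.line_of_dm (h : Sys L E Z) (hF : Fc L F) (hZ : ¬ Thin Z F) (hd : dm F ≤ 3) :
    Line L Z F := by
  obtain ⟨G, hG, hl⟩ := h.a4 F hF hZ
  have := hl.face.eq_of_dm hF hG (by rw [hl.dim]; exact hd)
  exact this ▸ hl

/-- two different lines meet in a thin face of dimension at most two -/
theorem Sys.line_inter (h : Sys L E Z) (hF : Line L Z F) (hG : Line L Z G) (hne : F ≠ G) :
    Fc L (F ∩ G) ∧ Thin Z (F ∩ G) ∧ dm (F ∩ G) ≤ 2 := by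
  have h1 : F ∩ G ≠ F := fun hc => by
    have h2 : F ⊆ G := Set.inter_eq_left.1 hc
    exact hne (hF.face.eq_of_dm hG.face h2 (by rw [hF.dim, hG.dim]))
  have h2 := hF.face.inter hG.face
  refine ⟨h2, hF.thin _ h2 Set.inter_subset_left h1, ?_⟩
  have h3 := h2.dm_lt hF.face Set.inter_subset_left h1
  rw [hF.dim] at h3
  omega

/-- a line which contains another line is equal to it -/
theorem Line.eq_of_sub (hF : Line L Z F) (hG : Line L Z G) (h : F ⊆ G) : F = G :=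
  hF.face.eq_of_dm hG.face h (by rw [hF.dim, hG.dim])

theorem Sys.meet (h : Sys L E Z) {e : K} (he : e ∈ E) (h0 : e ≠ 0) (hF : Line L Z F) :
    ∃ x ∈ F, x ≠ 0 ∧ ⟪e, x⟫ = 0 := by
  obtain ⟨G, hG, h1⟩ := h.a3 e he h0
  obtain ⟨x, hx, hx', hx0⟩ := h.a5 F G hF hG
  exact ⟨x, hx, hx0, h1 x hx'⟩

omit [FiniteDimensional ℝ K] in
/-- a maximal thin face and a larger set -/
theorem MaxT.not_thin {R : Set K} (hR : MaxT L Z R) (hF : Fc L F) (h : R ⊆ F) (hne : F ≠ R) :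
    ¬ Thin Z F := fun hc => hne (hR.max F hF hc h)

/-- there is a generator of a maximal thin face in `Z` -/
theorem MaxT.exists_gen {R : Set K} (hR : MaxT L Z R) (h : Sys L E Z) :
    ∃ r ∈ R, Fa L r = R ∧ r ∈ Z ∧ r ≠ 0 := by
  obtain ⟨r, hr, hgen⟩ := hR.face.exists_gen h.cone
  have h0 : r ≠ 0 := by
    rintro rfl
    obtain ⟨x, hx, hx0⟩ := hR.ne
    rw [← hgen] at hx
    obtain ⟨hxL, t, ht, h1⟩ := hx
    exact hx0 (h.cone.pointed x hxL (by simpa using h1))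
  exact ⟨r, hr, hgen, hR.thin r hr h0, h0⟩

/-- every thin face `≠ 0` is contained in a maximal one -/
theorem Sys.exists_maxT (h : Sys L E Z) {R : Set K} (hR : Fc L R) (hT : Thin Z R)
    (hne : ∃ x ∈ R, x ≠ 0) : ∃ R', R ⊆ R' ∧ MaxT L Z R' := by
  have key : ∀ n : ℕ, ∀ R : Set K, Fc L R → Thin Z R → (∃ x ∈ R, x ≠ 0) → 6 ≤ dm R + n →
      ∃ R', R ⊆ R' ∧ MaxT L Z R' := by
    intro n
    induction n with
    | zero =>
      intro R hR hT hne hn
      refine ⟨R, subset_rfl, hR, hT, hne, fun R' hR' _ hs => ?_⟩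
      refine (hR.eq_of_dm hR' hs ?_).symm
      have h1 := dm_mono hR'.sub
      rw [h.dm_L] at h1
      omega
    | succ n ih =>
      intro R hR hT hne hn
      by_cases hm : ∀ R', Fc L R' → Thin Z R' → R ⊆ R' → R' = R
      · exact ⟨R, subset_rfl, hR, hT, hne, hm⟩
      · push Not at hm
        obtain ⟨R', hR', hT', hs, hne'⟩ := hm
        have h1 := hR.dm_lt hR' hs hne'.symm
        obtain ⟨x, hx, hx0⟩ := hne
        obtain ⟨R'', hs', hM⟩ := ih R' hR' hT' ⟨x, hs hx, hx0⟩ (by omega)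
        exact ⟨R'', hs.trans hs', hM⟩
  exact key 6 R hR hT hne (by omega)

/-- in the case of rays the elements of `Z` are extreme -/
theorem RayH.ex (hR : RayH L Z) (h : Sys L E Z) {g : K} (hg : g ∈ Z) : Ex L g := by
  have h1 := h.Zsub g hg
  exact Ex.of_dm (Fa_face h.cone h1.1) (hR _ (Fa_face h.cone h1.1) (h.thin_Fa hg))
    (mem_Fa h.cone h1.1) h1.2

theorem RayH.maxT (hR : RayH L Z) (h : Sys L E Z) {g : K} (hg : g ∈ Z) : MaxT L Z (Ry g) := by
  have h1 := hR.ex h hg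
  have h2 := h1.face h.cone
  refine ⟨h2, ?_, ⟨g, ⟨1, zero_le_one, by simp⟩, h1.2.1⟩, fun R' hR' hT hs => ?_⟩
  · rw [← h1.Fa_eq h.cone]
    exact h.thin_Fa hg
  · refine (h2.eq_of_dm hR' hs ?_).symm
    rw [dm_Ry h1.2.1]
    exact hR R' hR' hT

/-- in the case of rays the proper faces of a line have dimension at most one -/
theorem RayH.dm_le (hR : RayH L Z) (hF : Line L Z F) (hG : Fc L G) (hs : G ⊆ F) (hne : G ≠ F) :
    dm G ≤ 1 := hR G hG (hF.thin G hG hs hne)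

theorem RayH.inter (hR : RayH L Z) (h : Sys L E Z) (hF : Line L Z F) (hG : Line L Z G)
    (hne : F ≠ G) : ∃ g ∈ Z, F ∩ G = Ry g := by
  obtain ⟨h1, h2, -⟩ := h.line_inter hF hG hne
  obtain ⟨g, hgF, hgG, hg0⟩ := h.a5 F G hF hG
  have hgZ := h2 g ⟨hgF, hgG⟩ hg0
  have h3 := hR.ex h hgZ
  refine ⟨g, hgZ, (Fc.eq_of_dm (h3.face h.cone) h1 ?_ ?_).symm⟩
  · rw [← h3.Fa_eq h.cone]
    exact Fa_sub h1 ⟨hgF, hgG⟩
  · rw [dm_Ry hg0]
    exact hR _ h1 h2

theorem RayH.add (hR : RayH L Z) (h : Sys L E Z) {g g' : K} (hg : g ∈ Z) (hg' : g' ∈ Z)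
    (hn : ∀ t : ℝ, g' ≠ t • g) : g + g' ∉ Z := fun hc => by
  have h1 := hR.ex h hc
  have h2 := (h.Zsub g hg)
  have h3 := (h.Zsub g' hg')
  obtain ⟨s, hs⟩ := h1.2.2 g h2.1 g' h3.1 rfl
  have hs0 : s ≠ 0 := by
    rintro rfl
    exact h2.2 (by rw [hs, zero_smul])
  refine hn (s⁻¹ - 1) ?_
  have h4 : s⁻¹ • g = g + g' := by
    conv_lhs => rw [hs, smul_smul, inv_mul_cancel₀ hs0, one_smul]
  rw [sub_smul, one_smul, h4]
  abel

end SysBasic

end D1

end TightRP
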