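import Pool.Agent.Lib.MP_7cdc3e_gt.D1.Sba

/-!
# MP_7cdc3e_gt, section T5 (= D1): statements

`Sys L E Z` (file `Defs`): `L` is a closed pointed convex cone with interior in a six-dimensional
space, `E` a closed set of functionals (vectors, by the inner product) which defines `L`, `Z` the
elements of rank one.  THEOREM `S_D1`: `L` is the cone over six independent elements, or `L` is the
cone of positive semidefinite ternary quadratic forms.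

Every `S_...` is a statement to be proved in its own file `D1/<Name>.lean` as `theorem t<Name>`, with
the statements it uses as hypotheses.  The docstring contains the complete proof.  The files
`Bas.lean` and `Sba.lean` (proved) contain the basic lemmas on faces (`Fa_face`, `Fc.exists_gen`,
`Fc.mem_of_span`, `Fc.eq_of_dm`, `exists_eps`, `interior_add`, `Ex.Fa_eq`, `Ex.of_dm`, ...) and on
systems (`Sys.thin_iff`, `Sys.Ex_Z`, `Line.gen`, `Sys.line_of_dm`, `Sys.line_inter`, `MaxT.not_thin`,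
`Sys.exists_maxT`, `RayH.ex`, `RayH.inter`, ...).
-/

set_option autoImplicit false

open scoped RealInnerProductSpace Matrix
open Module

namespace TightRP

namespace D1

/-! ## Part C: closed cones -/

/-- **Ext** (120 lines).  A face is generated by the extreme elements in it.

Proof.  It is enough to treat `x ∈ F`, by strong induction on `dm (Fa L x)`.  `x = 0`: clear.  `Ex L x`: clear.  Otherwise there are `y, z ∈ L` with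
`y + z = x` and `y ∉ ℝ x`; so `y ∈ Fa L x`, `y ≠ 0`.
CUT: let `u ∈ L`, `u ≠ 0`, `w ∈ Fa L u`, `w ∉ ℝ u`.  The set `T = {s ≥ 0 | u - s • w ∈ L}` is closed, contains a positive number (`w ∈ Fa L u`), and is bounded:
if `s_n → ∞`, `s_n⁻¹ • u - w ∈ L`, so `-w ∈ L`, `w = 0 ∈ ℝ u`.  (Bounded can also be seen from `u - s w ∈ L`, `s > 0`, `s⁻¹ u - w ∈ L`, `IsClosed`.)  Let
`s₀ = sSup T > 0` and `u' = u - s₀ • w ∈ L`.  `u' ≠ 0` (else `w ∈ ℝ u`), `u' ∈ Fa L u`, and `Fa L u' ≠ Fa L u`: otherwise `w ∈ Fa L u'`, `t • u' - w ∈ L` with `t > 0` (`Fa_pos`), so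
`u - (s₀ + t⁻¹) • w = t⁻¹ • (t • u' - w) ∈ L`, against the maximality.  So `dm (Fa L u') < dm (Fa L u)` (`Fc.dm_lt`, `Fa_sub`).
First CUT with `u = x`, `w = y`: `x' = x - s₀ • y`.  `x' ∉ ℝ x`: `x' = λ x` gives `s₀ y = (1 - λ) x`, `y ∈ ℝ x`.  Second CUT with `u = x`, `w = x'`: `x'' = x - s₁ • x'`.
So `x = x'' + s₁ • x'`, and `x''`, `s₁ • x'` (`Fa L (s₁ • x') = Fa L x'`, or: the extreme elements in question are the same up to scaling; simplest: prove the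
statement for `x'` and then scale: choose `G' = {z | ∀ s ≥ 0, s • z ∈ G}` instead of `G`, which is closed under addition and contains the extreme elements by
`Ex.smul` and `0 ∈ G`) are in `F` (`Fa L x ⊆ F`) and have smaller dimension.  Induction. -/
def S_Ext : Prop :=
  ∀ (K : Type) [NormedAddCommGroup K] [InnerProductSpace ℝ K] [FiniteDimensional ℝ K]
    (L : Set K),
  IsCone L → ∀ F, Fc L F → ∀ G : Set K, (0 : K) ∈ G → (∀ x ∈ G, ∀ y ∈ G, x + y ∈ G) →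
    (∀ x, Ex L x → x ∈ F → x ∈ G) → F ⊆ G

/-- **Sep** (40 lines).  Separation from a closed convex cone.

Proof.  Mathlib: `ProperCone.hyperplane_separation'`-style lemmas (search `hyperplane_separation`), or `geometric_hahn_banach_closed_point`
(`C` convex closed, `x ∉ C`: `f c < u < f x` for `c ∈ C`); as `C` is a cone `f ≤ 0` on `C` and `u > 0`; take `y` with `⟪y, z⟫ = -f z` (`InnerProductSpace.toDual`). -/
def S_Sep : Prop :=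
  ∀ (K : Type) [NormedAddCommGroup K] [InnerProductSpace ℝ K] [FiniteDimensional ℝ K]
    (C : Set K),
  IsClosed C → (0 : K) ∈ C → (∀ x ∈ C, ∀ y ∈ C, x + y ∈ C) → (∀ x ∈ C, ∀ t : ℝ, 0 ≤ t → t • x ∈ C) →
    ∀ x, x ∉ C → ∃ y : K, (∀ z ∈ C, 0 ≤ ⟪y, z⟫) ∧ ⟪y, x⟫ < 0

/-- **Dua** (80 lines; uses `S_Sep`).  Bipolar theorem; a strictly positive functional.

Proof.  (1) If `k ∉ L`, `S_Sep` gives `y ∈ Du L` with `⟪y, k⟫ < 0`.  (2) `Du L` is closed under `0, +, t •` (`Du_zero`, `Du_add`, `Du_smul`).  `span (Du L) = ⊤`: otherwise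
there is `v ≠ 0` orthogonal to it (`Submodule.exists_ne_zero...` / `(span)ᗮ ≠ ⊥`), and by (1) `v, -v ∈ L`, so `v = 0`.  Choose a finite set `b ⊆ Du L` which spans (as in the proof of `Fc.exists_gen`,
`exists_linearIndependent`) and `ψ = ∑ y ∈ b, y`.  For `k ∈ L`: `⟪ψ, k⟫ = ∑ ⟪y, k⟫` with nonnegative terms; if it is `0` then all `⟪y, k⟫ = 0`, so `k` is orthogonal to everything, `k = 0`. -/
def S_Dua : Prop :=
  ∀ (K : Type) [NormedAddCommGroup K] [InnerProductSpace ℝ K] [FiniteDimensional ℝ K]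
    (L : Set K), IsCone L →
  (∀ k, (∀ y ∈ Du L, 0 ≤ ⟪y, k⟫) → k ∈ L) ∧ ∃ p ∈ Du L, ∀ k ∈ L, k ≠ 0 → 0 < ⟪p, k⟫

/-- **Pos** (60 lines; uses `S_Dua`).  Interior points by the dual cone.

Proof.  `S = {y | y ∈ Du L, ‖y‖ = 1}` is compact.  If `S = ∅` then `Du L = {0}` and `L = univ` by `S_Dua`.  Otherwise `y ↦ ⟪y, k⟫` has a positive minimum `δ` on `S`; for `‖k' - k‖ < δ` and
`y ∈ Du L`: `⟪y, k'⟫ ≥ (δ - ‖k' - k‖) ‖y‖ ≥ 0`, so `k' ∈ L` by `S_Dua`. -/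
def S_Pos : Prop :=
  ∀ (K : Type) [NormedAddCommGroup K] [InnerProductSpace ℝ K] [FiniteDimensional ℝ K]
    (L : Set K), IsCone L →
  ∀ k, (∀ y ∈ Du L, y ≠ 0 → 0 < ⟪y, k⟫) → k ∈ interior L

/-- **Lea** (60 lines).  Leaving a cone from a generator.

Proof.  `T = {t ∈ [0,1] | (1-t) • y₀ + t • y ∈ Y}` is closed and contains `0`; `t₀ = sSup T ∈ T`, `t₀ < 1` because `y ∉ Y`.  `e = (1-t₀) • y₀ + t₀ • y`.  If `Fa Y e = Y` then `exists_eps` (with `F = Y = L`,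
`Fc.self`, direction `y - y₀ ∈ span Y`) gives `e + s • (y - y₀) ∈ Y` for small `s > 0`, so `t₀ + s ∈ T` for `s ≤ 1 - t₀`: contradiction. -/
def S_Lea : Prop :=
  ∀ (K : Type) [NormedAddCommGroup K] [InnerProductSpace ℝ K] [FiniteDimensional ℝ K]
    (Y : Set K), IsCone Y →
  ∀ y₀ ∈ Y, ∀ y ∈ Submodule.span ℝ Y, y ∉ Y →
    ∃ t : ℝ, 0 ≤ t ∧ t < 1 ∧ (1 - t) • y₀ + t • y ∈ Y ∧ Fa Y ((1 - t) • y₀ + t • y) ≠ Y

/-- **Cls** (70 lines).  `C + A` is closed if `C ∩ A = 0`.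

Proof.  Let `z_n → z`, `x_n ∈ C`, `z_n - x_n ∈ A`.  If `‖x_n‖` is bounded (along a subsequence), a subsequence of `x_n` converges to `x ∈ C`, `z - x ∈ A` (`A` closed).  Otherwise `‖x_n‖ → ∞` and a
subsequence of `‖x_n‖⁻¹ • x_n` converges to `u`, `‖u‖ = 1`, `u ∈ C`; `‖x_n‖⁻¹ • (z_n - x_n) → -u ∈ A`: contradiction.  (Alternative: `u ↦ dist(u, A)` has a positive minimum `c` on the compact set
`C ∩ sphere`, so `‖x‖ ≤ c⁻¹ dist(x, A) ≤ c⁻¹ ‖z‖` whenever `x ∈ C`, `z - x ∈ A`; then the set is locally the projection of a compact set.) -/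
def S_Cls : Prop :=
  ∀ (K : Type) [NormedAddCommGroup K] [InnerProductSpace ℝ K] [FiniteDimensional ℝ K]
    (C : Set K) (A : Submodule ℝ K),
  IsClosed C → (0 : K) ∈ C → (∀ x ∈ C, ∀ t : ℝ, 0 ≤ t → t • x ∈ C) → (∀ x ∈ C, x ∈ A → x = 0) →
    IsClosed {z : K | ∃ x ∈ C, z - x ∈ A}

/-- **Cpt** (70 lines).  A compactness statement.

Proof.  Closed: clear.  Bounded: otherwise there are `x_n` in the set with `‖x_n‖ → ∞`; a subsequence of `‖x_n‖⁻¹ • x_n` converges to `u`, `‖u‖ = 1`, `u ∈ L`, `u ∈ A` (because `‖x_n‖⁻¹ • (x_n - k) → u` and `A` is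
closed), `⟪c, u⟫ ≤ 0`: contradiction. -/
def S_Cpt : Prop :=
  ∀ (K : Type) [NormedAddCommGroup K] [InnerProductSpace ℝ K] [FiniteDimensional ℝ K]
    (L : Set K) (A : Submodule ℝ K) (c : K),
  IsCone L → (∀ x ∈ L, x ∈ A → x ≠ 0 → 0 < ⟪c, x⟫) →
    ∀ (k : K) (m : ℝ), IsCompact {x : K | x ∈ L ∧ x - k ∈ A ∧ ⟪c, x⟫ ≤ m}

/-- **Kkt** (120 lines; uses `S_Cpt`).  Minimizing `k` over `{p ∈ Du L | p = c on A}` with multiplier.

Proof.  The set `{x | x ∈ L ∧ x - k ∈ A ∧ ⟪c, x⟫ ≤ ⟪c, k⟫}` is compact (`S_Cpt`) and contains `k`; let `φ` minimize `⟪c, ·⟫` on it, `m = k - φ ∈ A`.  Then `φ ∈ L` and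
(*) `⟪c, a⟫ ≥ 0` for all `a ∈ A` and `s ≥ 0` with `a + s • φ ∈ L`.  For `s = 0` this is the hypothesis.  For `s > 0`: `φ + s⁻¹ • a ∈ L`, `(φ + s⁻¹ • a) - k ∈ A`; by minimality `⟪c, φ⟫ ≤ ⟪c, φ + s⁻¹ a⟫` (if `φ + s⁻¹ a`
is not in the compact set then `⟪c, φ + s⁻¹ a⟫ > ⟪c, k⟫ ≥ ⟪c, φ⟫`).
`P = {x | ∃ s ≥ 0, x + s • φ ∈ L}` is a convex cone (`ConvexCone ℝ K`; it contains `L` and `-φ`).  Apply `riesz_extension` to `P` and the functional `⟪c, ·⟫` on `A` (`LinearPMap`): nonnegative on `A ∩ P`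
by (*); density: for `y : K` we need `a ∈ A` with `a + y ∈ P`: `k + ε • y ∈ L` (`interior_eps`), i.e. `φ + m + ε • y ∈ L`, so `ε⁻¹ • m + y + ε⁻¹ • φ ∈ L`: `a = ε⁻¹ • m`.  The extension `g` is `≥ 0` on `L` and on `-φ`,
so `g φ = 0`; represent `g` by `p` (`InnerProductSpace.toDual`, `LinearMap.toContinuousLinearMap`). -/
def S_Kkt : Prop :=
  ∀ (K : Type) [NormedAddCommGroup K] [InnerProductSpace ℝ K] [FiniteDimensional ℝ K]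
    (L : Set K) (A : Submodule ℝ K) (c : K),
  IsCone L → (∀ x ∈ L, x ∈ A → x ≠ 0 → 0 < ⟪c, x⟫) → ∀ k ∈ interior L,
    ∃ p ∈ Du L, ∃ m ∈ A, (∀ a ∈ A, ⟪p, a⟫ = ⟪c, a⟫) ∧ k - m ∈ L ∧ ⟪p, k - m⟫ = 0

/-- **In3** (60 lines).  Three pairwise non-proportional extreme elements are independent.

Proof.  (`LinearIndependent.pair...`, `Fintype.linearIndependent_iff`, `Fin.sum_univ_three`.)  Let `α a + β b + γ c = 0`, not all zero.  If one coefficient is zero, two of the vectors are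
proportional (or one is zero): contradiction.  All three of the same sign: `a ∈ L` and `-a ∈ L` (positive combination of `b, c`), so `a = 0`.  So (up to a global sign) one is of one sign and the two others of the
other sign, e.g. `a = β' b + γ' c` with `β', γ' > 0`: by `Ex L a` (`y = β' b`, `z = γ' c`) `β' b = t a`, so `b = (t/β') a`, and `t ≠ 0`: `a = s b`: contradiction.  The two other cases are the same with
`b` resp. `c` instead of `a`. -/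
def S_In3 : Prop :=
  ∀ (K : Type) [NormedAddCommGroup K] [InnerProductSpace ℝ K] [FiniteDimensional ℝ K]
    (L : Set K) (a b c : K),
  IsCone L → Ex L a → Ex L b → Ex L c → (∀ t : ℝ, a ≠ t • b) → (∀ t : ℝ, a ≠ t • c) →
    (∀ t : ℝ, b ≠ t • c) → LinearIndependent ℝ ![a, b, c]

/-- **Two** (80 lines; uses `S_Ext`, `S_In3`).  Two-dimensional faces.

Proof.  If all extreme elements in `F` were multiples of one vector `p` then `F ⊆ span {p}` by `S_Ext` (`G` = the submodule), so `dm F ≤ 1`.  So there are `Ex L p`, `Ex L q` in `F`, not proportional (`q ≠ t p` and `p ≠ t q`),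
so independent.  If `Ex L x`, `x ∈ F`, is proportional neither to `p` nor to `q` then `p, q, x` are independent by `S_In3`, in `span F` of dimension 2: contradiction.  So `x = t p` or `x = t q`, with `t ≥ 0` by
`IsCone.nonneg`.  `S_Ext` with `G = Cn ![p, q]` gives `F ⊆ Cn ![p, q]`; the other inclusion: `F` is closed under `+` and `t •`. -/
def S_Two : Prop :=
  ∀ (K : Type) [NormedAddCommGroup K] [InnerProductSpace ℝ K] [FiniteDimensional ℝ K]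
    (L F : Set K), IsCone L → Fc L F → dm F = 2 →
  ∃ p q : K, Ex L p ∧ Ex L q ∧ LinearIndependent ℝ ![p, q] ∧ F = Cn ![p, q] ∧
    ∀ x, Ex L x → x ∈ F → (∃ t : ℝ, 0 < t ∧ x = t • p) ∨ ∃ t : ℝ, 0 < t ∧ x = t • q

/-- **Fct** (70 lines).  The functional of a facet.

Proof.  `x₀` a generator of `F` (`Fc.exists_gen`), `W = span G`.  `x₀ ∉ W`: otherwise `x₀ ∈ G` (`Fc.mem_of_span`), `F = Fa L x₀ ⊆ G`, against the dimensions.  So `span F = W ⊔ ℝ x₀` (dimension).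
`y₁ = x₀ - proj_W x₀ ∈ Wᗮ`, `⟪y₁, x₀⟫ = ‖y₁‖² > 0`, `y = ⟪y₁, x₀⟫⁻¹ • y₁`: `⟪y, w⟫ = 0` on `W` and `⟪y, x₀⟫ = 1`.  For `x ∈ F` write `x = w + s • x₀`, `w ∈ W`, `s = ⟪y, x⟫`.  If `s < 0`: `x + (-s) • x₀ = w ∈ L ∩ W`, so it
is in `G`, so `(-s) • x₀ ∈ G` (`Fc.ext'`), `x₀ ∈ G` (`Fc.of_smul`): contradiction.  If `s = 0`: `x = w ∈ L ∩ W = G`. -/
def S_Fct : Prop :=
  ∀ (K : Type) [NormedAddCommGroup K] [InnerProductSpace ℝ K] [FiniteDimensional ℝ K]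
    (L F G : Set K), IsCone L → Fc L F → Fc L G →
  G ⊆ F → dm F = dm G + 1 →
    ∃ y : K, (∀ x ∈ F, 0 ≤ ⟪y, x⟫) ∧ (∀ x ∈ F, ⟪y, x⟫ = 0 ↔ x ∈ G) ∧ ∃ x ∈ F, 0 < ⟪y, x⟫

/-- **Nb** (90 lines; uses `S_Two`, `S_Fct`).  An extreme ray of a three-dimensional cone is in at most two two-dimensional faces.

Proof.  Suppose `A₁, A₂, A₃` are pairwise different.  `S_Two`: `A_i = Cn ![p, q]` and `v` is a positive multiple of `p` or `q`; call the other one `p_i`: `A_i = Cn ![v, p_i]`.  `A_i ∩ A_j ≠ A_i` (dimensions, `Fc.eq_of_dm`), so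
`p_j ∉ A_i` for `i ≠ j` (otherwise `A_j ⊆ A_i`).  `S_Fct` (`G = A_i`, `F = R`): `y_i ≥ 0` on `R`, `= 0` exactly on `A_i`.  `v, p₁, p₂` are independent (`p₂ ∉ span A₁` by `Fc.mem_of_span`), so they span `span R`:
`p₃ = α v + β p₁ + γ p₂`.  `⟪y₁, p₃⟫ = γ ⟪y₁, p₂⟫`, both positive: `γ > 0`.  `⟪y₂, p₃⟫ = β ⟪y₂, p₁⟫`: `β > 0`.  `0 = ⟪y₃, p₃⟫ = β ⟪y₃, p₁⟫ + γ ⟪y₃, p₂⟫ > 0`: contradiction. -/
def S_Nb : Prop :=
  ∀ (K : Type) [NormedAddCommGroup K] [InnerProductSpace ℝ K] [FiniteDimensional ℝ K]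
    (L R A₁ A₂ A₃ : Set K) (v : K), IsCone L → Fc L R → dm R = 3 → Ex L v →
  Fc L A₁ → Fc L A₂ → Fc L A₃ → A₁ ⊆ R → A₂ ⊆ R → A₃ ⊆ R → dm A₁ = 2 → dm A₂ = 2 → dm A₃ = 2 →
    v ∈ A₁ → v ∈ A₂ → v ∈ A₃ → A₁ = A₂ ∨ A₁ = A₃ ∨ A₂ = A₃

/-- **Pl** (110 lines; uses `S_Nb`, `S_Two`).  At most two edges connect two disjoint faces of a planar convex set.

Proof.  `A_i ∩ E₁` is a face `≠ A_i` (otherwise `A_i ⊆ E₁` and the nonzero element of `A_i ∩ E₂` is in `E₁ ∩ E₂`), so `dm (A_i ∩ E₁) ≤ 1`; a nonzero element `p_i` of it is extreme (`Ex.of_dm`).  So `Ex L p_i`, `p_i ∈ A_i ∩ E₁`.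
Case `dm E₁ ≤ 1`: all `p_i` are multiples of `p₁` (positive), so `p₁ ∈ A₁, A₂, A₃` and `S_Nb` gives the claim.  Case `dm E₁ = 2`: `S_Two` for `E₁`: each `p_i` is a positive multiple of `p` or of `q`; two of the three indices,
say `i ≠ j`, have the same alternative, say `p`.  `p ∈ E₁, A_i, A_j`; `S_Nb`: `E₁ = A_i`, `E₁ = A_j` (both impossible: `A_i` contains a nonzero element of `E₂`) or `A_i = A_j`. -/
def S_Pl : Prop :=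
  ∀ (K : Type) [NormedAddCommGroup K] [InnerProductSpace ℝ K] [FiniteDimensional ℝ K]
    (L R E₁ E₂ A₁ A₂ A₃ : Set K), IsCone L → Fc L R → dm R = 3 →
  Fc L E₁ → Fc L E₂ → E₁ ⊆ R → E₂ ⊆ R → dm E₁ ≤ 2 → dm E₂ ≤ 2 → (∀ x ∈ E₁, x ∈ E₂ → x = 0) →
  Fc L A₁ → Fc L A₂ → Fc L A₃ → A₁ ⊆ R → A₂ ⊆ R → A₃ ⊆ R → dm A₁ = 2 → dm A₂ = 2 → dm A₃ = 2 →
  (∃ x ∈ A₁, x ∈ E₁ ∧ x ≠ 0) → (∃ x ∈ A₁, x ∈ E₂ ∧ x ≠ 0) →
  (∃ x ∈ A₂, x ∈ E₁ ∧ x ≠ 0) → (∃ x ∈ A₂, x ∈ E₂ ∧ x ≠ 0) →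
  (∃ x ∈ A₃, x ∈ E₁ ∧ x ≠ 0) → (∃ x ∈ A₃, x ∈ E₂ ∧ x ≠ 0) →
    A₁ = A₂ ∨ A₁ = A₃ ∨ A₂ = A₃

/-- **Tri** (150 lines; uses `S_Two`, `S_Fct`).  If the two connecting edges have a common point then `R` is a triangle.

Proof.  `A₁ ∩ A₂ ≠ A₁` (same dimension), so `dm (A₁ ∩ A₂) = 1`; its nonzero element `v` is extreme.  As in `S_Pl` there are extreme `p₁ ∈ A₁ ∩ E₁`, `p₂ ∈ A₁ ∩ E₂`, `q₁ ∈ A₂ ∩ E₁`, `q₂ ∈ A₂ ∩ E₂`; `p₁, p₂` are not proportional (`E₁ ∩ E₂ = 0`), so by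
`S_Two` `A₁ = Cn ![p₁, p₂]` and every extreme element of `A₁` is a positive multiple of `p₁` or `p₂`; the same for `A₂`, `q₁, q₂`.  `v ∼ p₁` or `v ∼ p₂`; `v ∼ q₁` or `v ∼ q₂`.  `v ∼ p₁`, `v ∼ q₂` gives `v ∈ E₁ ∩ E₂`: impossible; the same for `p₂`,
`q₁`.  The hypotheses are symmetric in `E₁, E₂`, so assume `v ∼ p₂ ∼ q₂` (in `E₂`).  `p₁, q₁ ∈ E₁` are not proportional (else `A₁ = A₂`), so `dm E₁ = 2` and `E₁ = Cn ![p₁, q₁]` (`S_Two`: the extreme elements `p₁, q₁` are multiples of the two generators).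
`q₁ ∉ span A₁` (else `q₁ ∈ A₁` extreme, `q₁ ∼ p₁` or `q₁ ∼ v ∈ E₂`).  So `v, p₁, q₁` are independent and span `span R`.  `S_Fct` with `G = A₁`: `y = 0` on `A₁ ∋ v, p₁` and `⟪y, q₁⟫ > 0`: for `x = α v + β p₁ + γ q₁ ∈ R`:
`γ = ⟪y, x⟫ / ⟪y, q₁⟫ ≥ 0`.  With `G = A₂`: `β ≥ 0`.  With `G = E₁`: `α ≥ 0`.  So `R = Cn ![v, p₁, q₁]`.  Take `v 0 = v`, `v 1 = p₁`, `v 2 = q₁`. -/
def S_Tri : Prop :=
  ∀ (K : Type) [NormedAddCommGroup K] [InnerProductSpace ℝ K] [FiniteDimensional ℝ K]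
    (L R E₁ E₂ A₁ A₂ : Set K), IsCone L → Fc L R → dm R = 3 →
  Fc L E₁ → Fc L E₂ → E₁ ⊆ R → E₂ ⊆ R → dm E₁ ≤ 2 → dm E₂ ≤ 2 → (∀ x ∈ E₁, x ∈ E₂ → x = 0) →
  Fc L A₁ → Fc L A₂ → A₁ ⊆ R → A₂ ⊆ R → dm A₁ = 2 → dm A₂ = 2 → A₁ ≠ A₂ →
  (∃ x ∈ A₁, x ∈ E₁ ∧ x ≠ 0) → (∃ x ∈ A₁, x ∈ E₂ ∧ x ≠ 0) →
  (∃ x ∈ A₂, x ∈ E₁ ∧ x ≠ 0) → (∃ x ∈ A₂, x ∈ E₂ ∧ x ≠ 0) →
  (∃ x ∈ A₁, x ∈ A₂ ∧ x ≠ 0) →
    ∃ v : Fin 3 → K, LinearIndependent ℝ v ∧ (∀ i, Ex L (v i)) ∧ R = Cn v ∧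
      A₁ = Cn ![v 0, v 1] ∧ A₂ = Cn ![v 0, v 2]

/-- **Rai** (80 lines; uses `S_Pos`).  Raising a functional which is nonnegative on `R^⊥`.

Proof.  `S = {p | p ∈ Du L, ‖p‖ = 1}` is compact.  Suppose for every `n : ℕ` the set `S_n = {p ∈ S | ⟪p, y + δ • h + n • r⟫ ≤ 0}` is nonempty.  The `S_n` are compact and decreasing (`⟪p, r⟫ ≥ 0`), so there is a common `p`
(`IsCompact.nonempty_iInter_of_sequence_nonempty_isCompact_isClosed`): `⟪p, y + δ h⟫ + n ⟪p, r⟫ ≤ 0` for all `n`, so `⟪p, r⟫ = 0`, so `p = 0` on `Fa L r = R` (`t • r - x ∈ L`, `x ∈ L`), so `⟪p, y⟫ ≥ 0`; `⟪p, h⟫ > 0` (`Du_pos`):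
contradiction.  So for some `n`, `⟪p, y + δ h + n r⟫ > 0` on `S`, hence on `Du L - 0`; `S_Pos`. -/
def S_Rai : Prop :=
  ∀ (K : Type) [NormedAddCommGroup K] [InnerProductSpace ℝ K] [FiniteDimensional ℝ K]
    (L R : Set K) (r y h : K), IsCone L → Fc L R → r ∈ R → Fa L r = R →
  h ∈ interior L → (∀ p ∈ Du L, (∀ x ∈ R, ⟪p, x⟫ = 0) → 0 ≤ ⟪p, y⟫) →
    ∀ δ : ℝ, 0 < δ → ∃ t : ℝ, 0 ≤ t ∧ y + δ • h + t • r ∈ interior L

/-! ## Steps A, B -/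

/-- **SA** (120 lines).  The face `Y` of the dual cone.

Proof.  `D = Du L` is a cone (`Sys.Du_cone`), `E ⊆ D` (`Sys.sub_Du`), `0 ∈ E`.  `r` a generator of `R` in `Z` (`MaxT.exists_gen`).  `N = {p ∈ D | ⟪r, p⟫ = 0}` is a face of `D` (`Fc.kernel` for the cone `D` and `r ∈ Du D`); `p ∈ N` vanishes on
`R = Fa L r`.  Call `p ∈ D` GOOD if `p ∉ E`.
(1) A generator `p` of `N` (`Fa D p = N`) is good.  `K_p = {x ∈ L | ⟪p, x⟫ = 0}` is thin: let `x ∈ K_p`, `x ≠ 0`; (a1) with `r`: if `e ∈ E`, `⟪e, r⟫ = 0` then `e ∈ N = Fa D p`, `t • p - e ∈ D`, so `0 ≤ ⟪e, x⟫ ≤ t ⟪p, x⟫ = 0`.  So `x ∈ Z`.  If `p ∈ E`: `p = 0`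
gives `K_p = L`, not thin (`Sys.not_thin`); `p ≠ 0`: by (a3) `K_p` contains a line, which is not thin.  Contradiction.
(2) Choose `Y` among the faces of `D` contained in `N` with a generator `∉ E` (i.e. `∃ p ∈ Y, Fa D p = Y ∧ p ∉ E`) with `dm Y` minimal (`Nat.find` or `WellFounded.min`).
(3) `prop`: let `Y' ⊆ Y` be a face, `Y' ≠ Y`, `p'` a generator of `Y'` (`Fc.exists_gen`).  `dm Y' < dm Y`, so `p' ∈ E`.  If `p' = 0` then `Y' = Fa D 0 = {0}` (pointed), in `E`.  If `p' ≠ 0`: (a3) and `Line.exists_ne` give `x ∈ L`, `x ∉ Z`, `x ≠ 0`,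
`⟪p', x⟫ = 0`; `x ∉ interior L` (`Du_pos`).  For `p ∈ Y' = Fa D p'`: `⟪p, x⟫ = 0`, so `p ∈ E` by (a6).
(4) `three`: if `dm Y ≤ 2` then `Y ⊆ E` by (a11), but `Y` has an element `∉ E`.
(5) `ker`: let `p ∈ Y`, `Fa D p = Y`.  `p ∉ E` (otherwise: the element `p₀ ∈ Y`, `p₀ ∉ E`: if `p ∈ E`, `p ≠ 0`, then by (a3) there is `x ∉ Z`, `x ≠ 0`, `⟪p, x⟫ = 0` and as in (3) `Y ⊆ E`; if `p = 0` then `Y = {0} ⊆ E`.  Contradiction).
`K_p` is thin: `x ∈ K_p`, `x ≠ 0`, `x ∉ Z`: `x ∉ interior L` because `p ≠ 0` (`0 ∈ E`), (a6) gives `p ∈ E`: contradiction.  `K_p` is a face containing `R` (`orth`), so `K_p = R` (`MaxT.max`).  `orth` is `Y ⊆ N`. -/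
def S_SA : Prop :=
  ∀ (K : Type) [NormedAddCommGroup K] [InnerProductSpace ℝ K] [FiniteDimensional ℝ K]
    (L E Z R : Set K), Sys L E Z → MaxT L Z R → ∃ Y, YR L E R Y

/-- **SB** (150 lines; uses `S_Sep`, `S_Lea`, `S_Cls`).  The section property for one line.

Proof.  `D = Du L`, `A = (span Y)ᗮ`.  `y₀` a generator of `Y` (`Fc.exists_gen` in the cone `D`).
(1) `x ∈ L`, `x ∈ A` implies `x ∈ R` (`YR.ker` with `y₀`).  So `F ∩ A = 0` (`Dis`).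
(2) Let `x ∈ L` and suppose `x ∉ C = {z | ∃ f ∈ F, z - f ∈ A}`.  `C` is closed (`S_Cls`, `F` closed) and a cone; `S_Sep`: `y` with `⟪y, z⟫ ≥ 0` on `C` and `⟪y, x⟫ < 0`.  `A ⊆ C` (and `-A ⊆ C`), so `y ∈ Aᗮ = span Y`; `F ⊆ C`, so `⟪y, f⟫ ≥ 0` on `F`.  `y ∉ Y` because `Y ⊆ D`.
`S_Lea` in the cone `Y` (`Fc.isCone`): `e = (1-t) • y₀ + t • y ∈ Y`, `0 ≤ t < 1`, `Fa Y e ≠ Y`; `Fa Y e = Fa D e` (`Fa_in`) is a face of `D` in `Y`, `≠ Y`, so `e ∈ E` (`YR.prop`).  For `f ∈ F`, `f ≠ 0`: `⟪y₀, f⟫ > 0` (otherwise `f ∈ R` by `YR.ker`), so `⟪e, f⟫ > 0`.  In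
particular `e ≠ 0` (`Line.exists_ne`).  `Sys.meet`: some `f ∈ F`, `f ≠ 0`, `⟪e, f⟫ = 0`: contradiction.
(3) So `L ⊆ F + A`, and `span L = ⊤` (`span_top`): `span F ⊔ A = ⊤`, so `6 ≤ 3 + finrank A`.  `finrank A = 6 - dm Y ≤ 3` (`Submodule.finrank_add_finrank_orthogonal`, `YR.three`).  So `finrank A = 3` and `finrank (span F ⊓ A) = 0`
(`Submodule.finrank_sup_add_finrank_inf_eq`), i.e. the second claim. -/
def S_SB : Prop :=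
  ∀ (K : Type) [NormedAddCommGroup K] [InnerProductSpace ℝ K] [FiniteDimensional ℝ K]
    (L E Z R Y : Set K), Sys L E Z → MaxT L Z R → YR L E R Y →
  ∀ F, Line L Z F → Dis F R →
    (∀ x ∈ L, ∃ f ∈ F, x - f ∈ (Submodule.span ℝ Y)ᗮ) ∧
    (∀ x ∈ Submodule.span ℝ F, x ∈ (Submodule.span ℝ Y)ᗮ → x = 0) ∧
    finrank ℝ (Submodule.span ℝ Y)ᗮ = 3

/-- **D0** (90 lines; uses `S_Fct`).  The functional `y₀` in the case `dm R = 2`.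

Proof.  `D = Du L`, `r` a generator of `R`; `N = {p ∈ D | ⟪r, p⟫ = 0}` is a face of `D` (`Fc.kernel`), its elements vanish on `R = Fa L r`, `Y ⊆ N`, `N ⊆ (span R)ᗮ`, so `dm N ≤ 6 - 2 = 4`.  `finrank (span Y)ᗮ = 3`.
Case `Y = N`: choose `y ∈ (span Y)ᗮ`, `y ∉ span R` (dimensions 3 > 2).  `p ∈ D`, `p = 0` on `R`: `p ∈ N = Y`, so `⟪p, y⟫ = 0`.
Case `Y ≠ N`: `dm Y = 3 < dm N ≤ 4` (`Fc.dm_lt`).  `S_Fct` in the cone `D` with `G = Y`, `F = N`: `y` with `⟪y, p⟫ ≥ 0` on `N`, `= 0` on `Y`, `> 0` for some `p ∈ N`.  So `y ∈ (span Y)ᗮ`; `y ∉ span R` because that `p` is orthogonal to `span R`. -/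
def S_D0 : Prop :=
  ∀ (K : Type) [NormedAddCommGroup K] [InnerProductSpace ℝ K] [FiniteDimensional ℝ K]
    (L E Z R Y : Set K), Sys L E Z → MaxT L Z R → YR L E R Y → dm Y = 3 →
  dm R = 2 → ∃ y ∈ (Submodule.span ℝ Y)ᗮ, y ∉ Submodule.span ℝ R ∧
    ∀ p ∈ Du L, (∀ x ∈ R, ⟪p, x⟫ = 0) → 0 ≤ ⟪p, y⟫

/-- **Sec** (80 lines; uses `S_SA`, `S_SB`, `S_D0`).  The section property.

Proof.  `Y` from `S_SA`, `A = (span Y)ᗮ`.  `R ⊆ A` by `YR.orth`; `L ∩ A ⊆ R` by `YR.ker` with a generator of `Y`.  `finrank A = 6 - dm Y ≤ 3`, so `dm R ≤ 3`; (a7): `e ∈ E` positive on `R - 0`, `e ≠ 0` (`MaxT.ne`); (a3): a line `F` in the kernel of `e`; it is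
disjoint from `R`.  This is `exi`; `S_SB` for it gives `fin` (and `dm Y = 3`), and for all lines `sec` and `ind`.  `y0` is `S_D0`. -/
def S_Sec : Prop :=
  ∀ (K : Type) [NormedAddCommGroup K] [InnerProductSpace ℝ K] [FiniteDimensional ℝ K]
    (L E Z R : Set K), Sys L E Z → MaxT L Z R → ∃ A, SecP L Z R A

/-! ## Step C -/

/-- **Tra** (60 lines).  Transfer between two lines disjoint from `R`.

Proof.  `SecP.sec` for `F'` and `b`: `b' ∈ F'` with `b - b' ∈ A`.  `b' ≠ 0`: otherwise `b ∈ A ∩ span F`, `b = 0` (`SecP.ind`).  Let `y, z ∈ L`, `y + z = b'`; then `y, z ∈ F'` (face).  `SecP.sec` for `F`: `f, g ∈ F`, `y - f, z - g ∈ A`; `f + g - b = (b' - b) - ... ∈ A ∩ span F`, so `f + g = b`,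
`f = s • b` (`Ex L b`), and `y - s • b' = (y - f) + s • (b - b') ∈ A`, in `span F'`, so `y = s • b'`.  `Ph L A b' = Ph L A b`: `x - t • b' = (x - t • b) + t • (b - b')`. -/
def S_Tra : Prop :=
  ∀ (K : Type) [NormedAddCommGroup K] [InnerProductSpace ℝ K] [FiniteDimensional ℝ K]
    (L E Z R : Set K) (A : Submodule ℝ K), Sys L E Z → SecP L Z R A →
  ∀ F F', Line L Z F → Dis F R → Line L Z F' → Dis F' R → ∀ b ∈ F, Ex L b →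
    ∃ b' ∈ F', Ex L b' ∧ b - b' ∈ A ∧ Ph L A b' = Ph L A b

/-- **Phi** (140 lines).  The faces `Φ_b`.

Proof.  `b ∉ A` (`SecP.ind`, `b ≠ 0`).  FACE: only `ext` is not trivial: `x, y ∈ L`, `x + y - t • b ∈ A`, `t ≥ 0`.  `SecP.sec`: `x - f, y - g ∈ A`, `f, g ∈ F`; `f + g - t • b ∈ A ∩ span F = 0`, so `f + g = t • b`.  `t = 0`: `f = g = 0` (pointed), `x ∈ A`.  `t > 0`: `t⁻¹ f + t⁻¹ g = b`, so
`t⁻¹ f = s • b`, `f = (t s) • b` with `t s ≥ 0` (`IsCone.nonneg`), so `x ∈ Ph`.  `sub` (`t = 0`, `SecP.mem`), `mem` (`t = 1`).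
NOT THIN: `b ∉ R` (`Dis`), so `R ≠ Ph`, `MaxT.not_thin`.  SPN: `{x | ∃ t, x - t • b ∈ A} = A ⊔ span {b}` is a submodule containing `Ph`; its dimension is `≤ 3 + 1`, so `dim`; `ne` because `dm L = 6` (`Sys.dm_L`).
LIN: let `G ⊆ Ph` be a line.  (i) If `G` were disjoint from `R` then `SecP.sec` for `G`: `L ⊆ G + A ⊆ A ⊔ span {b}`, dimension `≤ 4`, but `span L = ⊤`: contradiction.  So there is `x ∈ G ∩ R`, `x ≠ 0`.  (ii) (a5): `x ∈ G ∩ F`, `x ≠ 0`; `x - t • b ∈ A`, in `span F`, so `x = t • b`, `t ≠ 0`, `t > 0`, so `b ∈ G` (`Fc.of_smul`).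
GEN: `r ∈ R`, `Fa L r = R`.  If `b + r ∈ Z` then `Fa L (b + r)` is thin (`Sys.thin_Fa`), contains `b` and `r`, hence `R = Fa L r`, so it equals `R` (`MaxT.max`), so `b ∈ R`, `b = 0`: contradiction. -/
def S_Phi : Prop :=
  ∀ (K : Type) [NormedAddCommGroup K] [InnerProductSpace ℝ K] [FiniteDimensional ℝ K]
    (L E Z R : Set K) (A : Submodule ℝ K), Sys L E Z → SecP L Z R A →
  ∀ F, Line L Z F → Dis F R → ∀ b ∈ F, Ex L b → PhiP L Z R A b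

/-- **Ran** (60 lines; uses `S_Kkt`).  RANGE, general form.

Proof.  For `x ∈ L ∩ A`, `x ≠ 0`: `x ∈ R`, so `⟪c, x⟫ > 0`.  `S_Kkt` with `k = h`: `p ∈ Du L`, `m ∈ A`, `p = c` on `A`, `φ = h - m ∈ L`, `⟪p, φ⟫ = 0`.  `φ ≠ 0`: otherwise `h ∈ A ∩ L = R`, `h ∈ Z` (`h ≠ 0`, `Sys.int_ne`), against `Sys.int_notZ`.  `p ≠ 0` (`MaxT.ne`: `x ∈ R`, `x ≠ 0`, `⟪p, x⟫ = ⟪c, x⟫ > 0`).
`φ ∉ interior L` (`Du_pos`).  `φ ∉ Z` by hypothesis (`φ - h = -m ∈ A`).  (a6): `p ∈ E`. -/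
def S_Ran : Prop :=
  ∀ (K : Type) [NormedAddCommGroup K] [InnerProductSpace ℝ K] [FiniteDimensional ℝ K]
    (L E Z R : Set K) (A : Submodule ℝ K), Sys L E Z → SecP L Z R A →
  ∀ c : K, (∀ x ∈ R, x ≠ 0 → 0 < ⟪c, x⟫) → ∀ h ∈ interior L, (∀ p ∈ Z, p - h ∉ A) →
    ∃ e ∈ E, ∀ a ∈ A, ⟪e, a⟫ = ⟪c, a⟫

/-- **Ran3** (60 lines; uses `S_Ran`).  RANGE for `dm R = 3`.

Proof.  `h ∈ interior L`.  `R ⊆ A` and dimensions: `span R = A`.  Suppose `p ∈ Z`, `p - h ∈ A = span R`.  `r` a generator of `R`, in `Z` (`MaxT.exists_gen`).  By `exists_eps` (`v = p - h`): `r + ε • (p - h) ∈ R`, so with `t = ε⁻¹`: `t • r + (p - h) ∈ R ⊆ L`, and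
`p + t • r = h + (t • r + (p - h)) ∈ interior L` (`interior_add`), against (a2) (`p ∈ Z`, `t • r ∈ Z`). -/
def S_Ran3 : Prop :=
  ∀ (K : Type) [NormedAddCommGroup K] [InnerProductSpace ℝ K] [FiniteDimensional ℝ K]
    (L E Z R : Set K) (A : Submodule ℝ K), Sys L E Z → SecP L Z R A →
  dm R = 3 → ∀ c : K, (∀ x ∈ R, x ≠ 0 → 0 < ⟪c, x⟫) → ∃ e ∈ E, ∀ a ∈ A, ⟪e, a⟫ = ⟪c, a⟫

/-- **Sgm** (90 lines; uses `S_Ran3`, `S_Dua`).  A segment meets `R`.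

Proof.  Suppose the segment `σ = {(1-s) • a₀ + s • a₁ | 0 ≤ s ≤ 1}` (compact, convex) misses `R` (closed, convex).  `geometric_hahn_banach_compact_closed` / `closed_compact`: a functional `f` and `u < v` with `f < u` on `R` and `v < f` on `σ`; `R` is a cone, so `f ≤ 0` on `R` and `u > 0`.  With
`c₀ = -f` (as a vector): `⟪c₀, x⟫ ≥ 0` on `R`, `⟪c₀, a₀⟫ < 0`, `⟪c₀, a₁⟫ < 0`.  `S_Dua`: `q ∈ Du L` positive on `L - 0`.  `c = c₀ + ε • q` with small `ε > 0`: `> 0` on `R - 0` and `< 0` at `a₀`, `a₁`.  `S_Ran3`: `e ∈ E` with `e = c` on `A ⊇ R`: `e > 0` on `R - 0`, `⟪e, a₀⟫ < 0`, `⟪e, a₁⟫ < 0`: contradiction. -/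
def S_Sgm : Prop :=
  ∀ (K : Type) [NormedAddCommGroup K] [InnerProductSpace ℝ K] [FiniteDimensional ℝ K]
    (L E Z R : Set K) (A : Submodule ℝ K), Sys L E Z → SecP L Z R A →
  dm R = 3 → ∀ a₀ ∈ A, ∀ a₁ ∈ A,
    (∀ e ∈ E, (∀ x ∈ R, x ≠ 0 → 0 < ⟪e, x⟫) → 0 ≤ ⟪e, a₀⟫ ∨ 0 ≤ ⟪e, a₁⟫) →
      ∃ s : ℝ, 0 ≤ s ∧ s ≤ 1 ∧ (1 - s) • a₀ + s • a₁ ∈ R

/-! ## Step D: `dm R = 2` is impossible -/

/-- **Db** (140 lines; uses `S_Phi`, `S_Tra`, `S_Cpt`, `S_Two`).  A bound at one extreme element.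

Proof.  `A = span R ⊕ ℝ y` (dimensions 2 and 3).  For `e ∈ E` with `e = c` on `R`: `e > 0` on `R - 0`, `e ≠ 0`; (a3): a line `F_e` in the kernel of `e`, disjoint from `R`; `S_Tra`: `b_e ∈ F_e`, `Ex L b_e`, `b - b_e ∈ A`, `Ph L A b_e = Ph L A b`, `⟪e, b_e⟫ = 0`.  So `⟪e, b⟫ = ⟪e, b - b_e⟫`.
`P = PhiP` (`S_Phi`) at `b` and at `b_e`: every line in `Ph L A b` contains `b_e`.  `3 ≤ dm Ph` (`Sys.three_le`).
Case `dm Ph = 4`: (a8): lines `G ≠ G'` in it; `H = G ∩ G'`, `dm H ≤ 2` (`Sys.line_inter`), `b_e ∈ H`.  The set `B = {β ∈ H | Ex L β ∧ b - β ∈ A}` is finite: proportional elements of `B` are equal (`eq_of_smul_sub`, `b ∉ A`), and in `H` there are at most two rays (`S_Two` if `dm H = 2`; if `dm H ≤ 1` all elements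
are proportional).  For `β ∈ B` write `b - β = v + λ y`, `v ∈ span R`: `⟪e, b - β⟫ = ⟪c, v⟫ + λ ⟪e, y⟫ ≤ (|⟪c, v⟫| + |λ|) (1 + |⟪e, y⟫|)`.  `C` = the maximum (or sum) over `B`.
Case `dm Ph ≤ 3`: `Ph` has dimension 3.  `W = span Ph ⊓ A`: `b ∈ span Ph`, `b ∉ A`, so `finrank W ≤ 2`, and `span R ⊆ W` has dimension 2: `W = span R`.  So `b - b_e ∈ span R` and `⟪e, b⟫ = ⟪c, b - b_e⟫`, `b_e ∈ L`, `b_e - b ∈ span R`.  `S_Cpt` with the submodule `span R` (for `x ∈ L ∩ span R`: `x ∈ R` by `Fc.mem_of_span`) and `k = b`,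
`m = ⟪c, b⟫`: the set `{x ∈ L | x - b ∈ span R, ⟪c, x⟫ ≤ ⟪c, b⟫}` is compact, `⟪c, ·⟫` is bounded below on it, hence on `{x ∈ L | x - b ∈ span R}`: `⟪c, b - b_e⟫ ≤ C`. -/
def S_Db : Prop :=
  ∀ (K : Type) [NormedAddCommGroup K] [InnerProductSpace ℝ K] [FiniteDimensional ℝ K]
    (L E Z R : Set K) (A : Submodule ℝ K), Sys L E Z → SecP L Z R A →
  dm R = 2 → ∀ y ∈ A, y ∉ Submodule.span ℝ R → ∀ c : K, (∀ x ∈ R, x ≠ 0 → 0 < ⟪c, x⟫) →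
    ∀ F, Line L Z F → Dis F R → ∀ b ∈ F, Ex L b →
      ∃ C : ℝ, ∀ e ∈ E, (∀ x ∈ R, ⟪e, x⟫ = ⟪c, x⟫) → ⟪e, b⟫ ≤ C * (1 + |⟪e, y⟫|)

/-- **Dk** (90 lines; uses `S_Db`, `S_Ext`).  The bound everywhere.

Proof.  `G = {k | ∃ C ≥ 0, ∀ e ∈ E, e = c on R → |⟪e, k⟫| ≤ C (1 + |⟪e, y⟫|)}` is a submodule.  It contains `R` (`|⟪e, x⟫| = |⟪c, x⟫|`), `y`, so `A = span R + ℝ y`.  `F` a line disjoint from `R` (`SecP.exi`): `G` contains the extreme elements `b ∈ F` (`S_Db` and `⟪e, b⟫ ≥ 0`), so `F ⊆ G` (`S_Ext`).  `L ⊆ F + A` (`SecP.sec`)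
and `span L = ⊤`: `G = ⊤`. -/
def S_Dk : Prop :=
  ∀ (K : Type) [NormedAddCommGroup K] [InnerProductSpace ℝ K] [FiniteDimensional ℝ K]
    (L E Z R : Set K) (A : Submodule ℝ K), Sys L E Z → SecP L Z R A →
  dm R = 2 → ∀ y ∈ A, y ∉ Submodule.span ℝ R → ∀ c : K, (∀ x ∈ R, x ≠ 0 → 0 < ⟪c, x⟫) →
    ∀ k : K, ∃ C : ℝ, 0 ≤ C ∧
      ∀ e ∈ E, (∀ x ∈ R, ⟪e, x⟫ = ⟪c, x⟫) → |⟪e, k⟫| ≤ C * (1 + |⟪e, y⟫|)

/-- **Dl** (80 lines; uses `S_Cpt`).  The multipliers tend to minus infinity.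

Proof.  Suppose not: for every `n : ℕ` there is `m ∈ span R` with `y + (n+1)⁻¹ • h - m ∈ L` and `⟪c, m⟫ ≥ -M`.  `T_n = {m | m ∈ span R, y + (n+1)⁻¹ • h - m ∈ L, ⟪c, m⟫ ≥ -M}` is compact (the image of the compact set of `S_Cpt` for the submodule `span R`, `k = y + (n+1)⁻¹ h`, under `x ↦ k - x`), and decreasing (`h ∈ L`).
So there is a common `m` (`IsCompact.nonempty_iInter_of_sequence_nonempty_isCompact_isClosed`).  `y + (n+1)⁻¹ h - m ∈ L` for all `n`, so `y - m ∈ L` (closed), and `y - m ∈ A` (`span R ⊆ A`), so `y - m ∈ R` (`SecP.mem`), `y ∈ span R`: contradiction.  So for some `n` there is no such `m`, and `ε = (n+1)⁻¹`. -/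
def S_Dl : Prop :=
  ∀ (K : Type) [NormedAddCommGroup K] [InnerProductSpace ℝ K] [FiniteDimensional ℝ K]
    (L E Z R : Set K) (A : Submodule ℝ K), Sys L E Z → SecP L Z R A →
  ∀ y ∈ A, y ∉ Submodule.span ℝ R → ∀ c : K, (∀ x ∈ R, x ≠ 0 → 0 < ⟪c, x⟫) →
    ∀ h ∈ interior L, ∀ M : ℝ, ∃ ε : ℝ, 0 < ε ∧
      ∀ m ∈ Submodule.span ℝ R, y + ε • h - m ∈ L → ⟪c, m⟫ < -M

/-- **Dm** (110 lines; uses `S_Kkt`, `S_Rai`, `S_Dl`).  Functionals in `E` which are very negative at `y`.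

Proof.  `h ∈ interior L`, `r` a generator of `R` in `Z`.  `ε` from `S_Dl` with `M = V`.  `S_Rai` (`δ = ε`): `t₀ ≥ 0`, `k = y + ε • h + t₀ • r ∈ interior L`.  `S_Kkt` with the submodule `span R` (`x ∈ L ∩ span R` is in `R`): `p ∈ Du L`, `m' ∈ span R`, `p = c` on `span R`, `k - m' ∈ L`, `⟪p, k - m'⟫ = 0`.  `m = m' - t₀ • r ∈ span R`,
`φ = k - m' = y + ε • h - m ∈ L`.  By `S_Dl` `⟪c, m⟫ < -V`, and `⟪p, y⟫ = ⟪p, m⟫ - ε ⟪p, h⟫ ≤ ⟪c, m⟫ < -V` (`⟪p, h⟫ ≥ 0`).  It remains `p ∈ E`, by (a6) for `φ`: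
`φ ≠ 0`: otherwise `ε • h = m - y ∈ A`, `h ∈ A ∩ L = R`, `h ∈ Z`, against `Sys.int_notZ`.  `p ≠ 0` (`MaxT.ne`), so `φ ∉ interior L`.  `φ ∉ Z`: `exists_eps` gives `s > 0` with `s • r + (-m') ∈ R` (for `s` large; `-m' ∈ span R`), then `φ + s • r = k + (s • r - m') ∈ interior L` (`interior_add`), against (a2) (`s • r ∈ Z`). -/
def S_Dm : Prop :=
  ∀ (K : Type) [NormedAddCommGroup K] [InnerProductSpace ℝ K] [FiniteDimensional ℝ K]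
    (L E Z R : Set K) (A : Submodule ℝ K), Sys L E Z → SecP L Z R A →
  ∀ y ∈ A, y ∉ Submodule.span ℝ R → (∀ p ∈ Du L, (∀ x ∈ R, ⟪p, x⟫ = 0) → 0 ≤ ⟪p, y⟫) →
    ∀ c : K, (∀ x ∈ R, x ≠ 0 → 0 < ⟪c, x⟫) → ∀ V : ℝ,
      ∃ e ∈ E, (∀ x ∈ R, ⟪e, x⟫ = ⟪c, x⟫) ∧ ⟪e, y⟫ < -V

/-- **Dfn** (60 lines; uses `S_Dk`, `S_Dm`, `S_Rai`, `S_Dua`).  `dm R ≠ 2`.

Proof.  `y` from `SecP.y0`.  `c ∈ Du L` positive on `L - 0` (`S_Dua`).  `h ∈ interior L`, `r` a generator of `R`.  `C ≥ 0` from `S_Dk` for `k = h`; `δ = (2 (C + 1))⁻¹`; `t` from `S_Rai`: `y + δ • h + t • r ∈ L`.  `S_Dm` with `V = 2 + 2 t ⟪c, r⟫`: `e ∈ E`, `w = -⟪e, y⟫ > V ≥ 0`.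
`0 ≤ ⟪e, y + δ h + t r⟫ ≤ -w + δ C (1 + w) + t ⟪c, r⟫ ≤ -w + (1 + w)/2 + t ⟪c, r⟫`, so `w ≤ 1 + 2 t ⟪c, r⟫ < V`: contradiction. -/
def S_Dfn : Prop :=
  ∀ (K : Type) [NormedAddCommGroup K] [InnerProductSpace ℝ K] [FiniteDimensional ℝ K]
    (L E Z R : Set K) (A : Submodule ℝ K), Sys L E Z → SecP L Z R A →
  dm R ≠ 2

/-! ## Step E: `dm R = 3` -/

/-- **E0** (90 lines).  The lines in `Φ_b` and their traces.

Proof.  `R ⊆ Ph`, `b ∉ R` (`notA`, `SecP.mem`), so `dm R < dm Ph ≤ 4` (`Fc.dm_lt`): `dm Ph = 4`; (a8).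
Let `G ⊆ Ph` be a line.  `G ∩ R` is a face, `b ∈ G`, `b ∉ R`, so `G ∩ R ≠ G`, `dm (G ∩ R) ≤ 2`; it is not zero by `PhiP.lin`.
Let `G ≠ G'` be lines in `Ph` with `G ∩ R = G' ∩ R = T` and `dm T = 2`.  `b ∉ span T` (`span T ⊆ A`), so `span (T ∪ {b})` has dimension 3 and is contained in `span G` and `span G'`, so it is equal to both; `G = L ∩ span G = L ∩ span G' = G'` (`Fc.eq_inter`). -/
def S_E0 : Prop :=
  ∀ (K : Type) [NormedAddCommGroup K] [InnerProductSpace ℝ K] [FiniteDimensional ℝ K]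
    (L E Z R : Set K) (A : Submodule ℝ K) (b : K), Sys L E Z → SecP L Z R A →
  dm R = 3 → PhiP L Z R A b →
    (∃ G G', Line L Z G ∧ Line L Z G' ∧ G ⊆ Ph L A b ∧ G' ⊆ Ph L A b ∧ G ≠ G' ∧
      ∀ H, Line L Z H → H ⊆ Ph L A b → H = G ∨ H = G') ∧
    (∀ G, Line L Z G → G ⊆ Ph L A b →
      Fc L (G ∩ R) ∧ dm (G ∩ R) ≤ 2 ∧ ∃ x ∈ G ∩ R, x ≠ 0) ∧
    ∀ G G', Line L Z G → Line L Z G' → G ⊆ Ph L A b → G' ⊆ Ph L A b → dm (G ∩ R) = 2 →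
      G ∩ R = G' ∩ R → G = G'

/-- **Eb** (70 lines; uses `S_Two`).  At a break the two traces are disjoint.

Proof.  `b` and `b'` are not proportional (`eq_of_smul_sub`).  `H = G ∩ G'` is a face with `dm H ≤ 2` (`Sys.line_inter`) containing `b, b'`, so `dm H = 2`.  `S_Two`: `H = Cn ![p, q]`; `b, b'` are positive multiples of `p, q` (one of each, as they are not proportional).  So `x = α b + β b'` with `α, β ≥ 0`.  `R` is a face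
(`SecP.thin.face`): `α b, β b' ∈ R`.  If `α ≠ 0` then `b ∈ R ⊆ A`: contradiction.  If `β ≠ 0` then `b' ∈ A`, so `b ∈ A`. -/
def S_Eb : Prop :=
  ∀ (K : Type) [NormedAddCommGroup K] [InnerProductSpace ℝ K] [FiniteDimensional ℝ K]
    (L E Z R : Set K) (A : Submodule ℝ K) (b b' : K), Sys L E Z →
  SecP L Z R A → Ex L b → Ex L b' → b - b' ∈ A → b ≠ b' → b ∉ A →
    ∀ G G', Line L Z G → Line L Z G' → G ≠ G' → b ∈ G → b' ∈ G → b ∈ G' → b' ∈ G' →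
      ∀ x ∈ G, x ∈ G' → x ∈ R → x = 0

/-- **Crs** (40 lines).  Lines over different rays meet in `R`.

Proof.  (a5): `x ∈ G ∩ G'`, `x ≠ 0`; `x - t • b ∈ A`, `x - t' • b₁ ∈ A`, `t ≥ 0`.  If `t ≠ 0`: `b - (t⁻¹ t') • b₁ ∈ A`: contradiction.  So `t = 0`, `x ∈ A ∩ L = R`. -/
def S_Crs : Prop :=
  ∀ (K : Type) [NormedAddCommGroup K] [InnerProductSpace ℝ K] [FiniteDimensional ℝ K]
    (L E Z R : Set K) (A : Submodule ℝ K) (b b₁ : K), Sys L E Z →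
  SecP L Z R A → (∀ s : ℝ, b - s • b₁ ∉ A) →
    ∀ G G', Line L Z G → Line L Z G' → G ⊆ Ph L A b → G' ⊆ Ph L A b₁ →
      ∃ x ∈ G, x ∈ G' ∧ x ∈ R ∧ x ≠ 0

/-- **Bk1** (100 lines; uses `S_Phi`, `S_E0`, `S_Eb`, `S_Crs`).  Traces over another ray connect `E₁` and `E₂`.

Proof.  `PhiP` at `b` (line `F`), `b'` (line `F'`), `b₁` (line `F`) by `S_Phi`; `Ph L A b = Ph L A b'` (`b - b' ∈ A`).  So the lines `G, G' ⊆ Ph L A b` contain `b` and `b'`; by `S_Eb` `(G ∩ R) ∩ (G' ∩ R) = 0`.  For all `s`: `b - s • b₁ ∉ A` (`SecP.ind`: else `b = s • b₁`, `s ≠ 0`, `b₁ = s⁻¹ • b`).  `S_Crs`: `x ∈ G ∩ H ∩ R`, `x' ∈ G' ∩ H ∩ R`,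
both `≠ 0`.  `dm (H ∩ R) ≤ 2` by `S_E0`; if `dm (H ∩ R) ≤ 1` then `x' = t • x` (as `x' ∈ span {x}` by dimension), `t > 0`, so `x ∈ G'` (`Fc.of_smul`), `x ∈ G ∩ G' ∩ R`, `x = 0`: contradiction. -/
def S_Bk1 : Prop :=
  ∀ (K : Type) [NormedAddCommGroup K] [InnerProductSpace ℝ K] [FiniteDimensional ℝ K]
    (L E Z R F F' : Set K) (A : Submodule ℝ K) (b b' b₁ : K), Sys L E Z →
  SecP L Z R A → dm R = 3 → Brk L Z R A F F' b b' → b₁ ∈ F → Ex L b₁ → (∀ s : ℝ, b₁ ≠ s • b) →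
    ∀ G G' H, Line L Z G → Line L Z G' → G ≠ G' → G ⊆ Ph L A b → G' ⊆ Ph L A b →
      Line L Z H → H ⊆ Ph L A b₁ →
        (∀ x ∈ G ∩ R, x ∈ G' ∩ R → x = 0) ∧ dm (H ∩ R) = 2 ∧
        (∃ x ∈ H ∩ R, x ∈ G ∩ R ∧ x ≠ 0) ∧ ∃ x ∈ H ∩ R, x ∈ G' ∩ R ∧ x ≠ 0

/-- **Bk2** (150 lines; uses `S_Phi`, `S_E0`, `S_Crs`, `S_Bk1`, `S_Pl`, `S_Tri`).  The triangle.

Proof.  `G ≠ G'` the two lines in `Ph L A b` (`S_E0`), `E₁ = G ∩ R`, `E₂ = G' ∩ R`.  `H₁ ≠ H₂` the two lines in `Ph L A b₁`, `A_i = H_i ∩ R`; `H₁' ≠ H₂'` the two lines in `Ph L A b₂`, `A_i' = H_i' ∩ R`.  By `S_Bk1` all four traces have dimension 2 and meet `E₁` and `E₂`, and `E₁ ∩ E₂ = 0`.  `A₁ ≠ A₂` and `A₁' ≠ A₂'` (third part of `S_E0`).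
`S_Pl` for `A₁, A₂, A₁'`: `A₁' = A₁` or `A₁' = A₂`; the same for `A₂'`.  So (renaming `H₁', H₂'`) `A₁' = A₁`, `A₂' = A₂`.  `S_Crs` for `b₁, b₂` (`b₁ - s • b₂ ∉ A` by `SecP.ind`), lines `H₁`, `H₂'`: a nonzero element of `A₁ ∩ A₂`.  `S_Tri`. -/
def S_Bk2 : Prop :=
  ∀ (K : Type) [NormedAddCommGroup K] [InnerProductSpace ℝ K] [FiniteDimensional ℝ K]
    (L E Z R F F' : Set K) (A : Submodule ℝ K) (b b' b₁ b₂ : K), Sys L E Z →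
  SecP L Z R A → dm R = 3 → Brk L Z R A F F' b b' → b₁ ∈ F → Ex L b₁ → b₂ ∈ F → Ex L b₂ →
    (∀ s : ℝ, b₁ ≠ s • b) → (∀ s : ℝ, b₂ ≠ s • b) → (∀ s : ℝ, b₁ ≠ s • b₂) →
      ∃ v : Fin 3 → K, LinearIndependent ℝ v ∧ (∀ i, Ex L (v i)) ∧ R = Cn v ∧
        (∃ H H', Line L Z H ∧ Line L Z H' ∧ H ⊆ Ph L A b₁ ∧ H' ⊆ Ph L A b₁ ∧
          H ∩ R = Cn ![v 0, v 1] ∧ H' ∩ R = Cn ![v 0, v 2]) ∧
        ∃ H H', Line L Z H ∧ Line L Z H' ∧ H ⊆ Ph L A b₂ ∧ H' ⊆ Ph L A b₂ ∧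
          H ∩ R = Cn ![v 0, v 1] ∧ H' ∩ R = Cn ![v 0, v 2]

/-- **Bk3** (70 lines; uses `S_Tra`, `S_Phi`, `S_Eb`, `S_Bk2`).  No second break.

Proof.  Suppose `b₁ ∉ F₂`.  `S_Tra`: `b₁' ∈ F₂`, `Ex L b₁'`, `b₁ - b₁' ∈ A`, `Ph L A b₁' = Ph L A b₁`; `b₁ ≠ b₁'`.  `S_Bk2`: lines `H, H'` in `Ph L A b₁` with traces `Cn ![v 0, v 1]`, `Cn ![v 0, v 2]`; `H ≠ H'` (the traces are different because `v` is independent: `v 1` is not in the second one).  `PhiP` at `b₁` and `b₁'`: both lines contain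
`b₁` and `b₁'`.  `S_Eb`: `v 0 ∈ H ∩ H' ∩ R` is zero: contradiction. -/
def S_Bk3 : Prop :=
  ∀ (K : Type) [NormedAddCommGroup K] [InnerProductSpace ℝ K] [FiniteDimensional ℝ K]
    (L E Z R F F' : Set K) (A : Submodule ℝ K) (b b' b₁ b₂ : K), Sys L E Z →
  SecP L Z R A → dm R = 3 → Brk L Z R A F F' b b' → b₁ ∈ F → Ex L b₁ → b₂ ∈ F → Ex L b₂ →
    (∀ s : ℝ, b₁ ≠ s • b) → (∀ s : ℝ, b₂ ≠ s • b) → (∀ s : ℝ, b₁ ≠ s • b₂) →
      ∀ F₂, Line L Z F₂ → Dis F₂ R → b₁ ∈ F₂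

/-- **Ba** (130 lines; uses `S_Bk3`, `S_Tra`, `S_Ext`, `S_Two`).  At a break `F` and `F'` are triangles with a common edge.

Proof.  `F ≠ F'`: otherwise `b - b' ∈ A ∩ span F = 0`.  `H = F ∩ F'`, `dm H ≤ 2` (`Sys.line_inter`).  CLAIM: `g ∈ F`, `Ex L g`, `g ≠ s • b` for all `s` implies `g ∈ F₂` for every line `F₂` disjoint from `R`: there is an extreme `g₂ ∈ F` not proportional to `b` and not to `g` (otherwise `F ⊆ span {b, g}` by `S_Ext`, but `dm F = 3`), `S_Bk3`.  So all these `g` are in `H`.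
`F ⊆ span H + ℝ b` (`S_Ext`), so `dm H ≥ 2`, `dm H = 2`, `S_Two`: `H = Cn ![s, t]`, `Ex L s`, `Ex L t`.  `b` is not proportional to an element of `H` (`b ∉ F'`: otherwise `b - b' ∈ A ∩ span F'`, `b = b'`), so `b, s, t` are independent (`span F` has dimension 3 and is spanned by them).  `F = Cn ![b, s, t]`: `S_Ext` with `G = Cn ![b, s, t]`: an extreme
`g ∈ F` is a (positive, `IsCone.nonneg`) multiple of `b`, or is in `H = Cn ![s, t]`.  `F' = Cn ![b', s, t]`: let `g' ∈ F'`, `Ex L g'`; `S_Tra`: `g ∈ F`, `Ex L g`, `g' - g ∈ A`.  If `g = λ b` then `g' - λ b' = (g' - g) + λ (b - b') ∈ A ∩ span F'`, `g' = λ b'`.  Otherwise `g ∈ F'` (CLAIM) and `g' - g ∈ A ∩ span F'`, `g' = g ∈ H`.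
`s, t ∈ F₂` for all `F₂`: the CLAIM (`s, t` are not multiples of `b`, because `b ∉ F'`). -/
def S_Ba : Prop :=
  ∀ (K : Type) [NormedAddCommGroup K] [InnerProductSpace ℝ K] [FiniteDimensional ℝ K]
    (L E Z R F F' : Set K) (A : Submodule ℝ K) (b b' : K), Sys L E Z →
  SecP L Z R A → dm R = 3 → Brk L Z R A F F' b b' →
    ∃ s t : K, Ex L s ∧ Ex L t ∧ LinearIndependent ℝ ![b, s, t] ∧ F = Cn ![b, s, t] ∧
      F' = Cn ![b', s, t] ∧ ∀ F₂, Line L Z F₂ → Dis F₂ R → s ∈ F₂ ∧ t ∈ F₂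

/-- **Bb** (120 lines; uses `S_Sgm`, `S_Tra`, `S_Phi`, `S_E0`, `S_Two`).  The structure of `L` at a break.

Proof.  Let `x ∈ L`.  `SecP.sec`: `x - f ∈ A`, `f = β₀ b + σ s + τ t ∈ F`.  `a₀ = x - f`, `a₁ = a₀ + β₀ (b - b')`.  We apply `S_Sgm`.  Let `e ∈ E` be positive on `R - 0`.  `e ≠ 0`; (a3): a line `F_e` in the kernel of `e`, disjoint from `R`; `s, t ∈ F_e`: `⟪e, s⟫ = ⟪e, t⟫ = 0`.  `S_Tra`: `b_e ∈ F_e`, `Ex L b_e`, `b - b_e ∈ A`,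
`Ph L A b_e = Ph L A b = Ph L A b'`.  CLAIM `b_e = b` or `b_e = b'`: let `G ≠ G'` be the lines in `Ph L A b` (`S_E0`, `S_Phi`); both contain `b, b', b_e` (`PhiP.lin` at `b` (line `F`), `b'` (line `F'`), `b_e` (line `F_e`)).  `H = G ∩ G'`, `dm H ≤ 2`, contains `b, b'`, not proportional (`eq_of_smul_sub`), so `dm H = 2` and by `S_Two` `b_e` is
proportional to `b` or to `b'`, so equal (`eq_of_smul_sub`).  If `b_e = b`: `⟪e, b⟫ = 0` and `⟪e, a₀⟫ = ⟪e, x⟫ ≥ 0`.  If `b_e = b'`: `x = a₁ + β₀ b' + σ s + τ t`, `⟪e, a₁⟫ = ⟪e, x⟫ ≥ 0`.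
So there is `λ ∈ [0,1]` with `ρ = (1-λ) a₀ + λ a₁ = a₀ + λ β₀ (b - b') ∈ R`, and `x = ρ + (1-λ) β₀ b + λ β₀ b' + σ s + τ t`. -/
def S_Bb : Prop :=
  ∀ (K : Type) [NormedAddCommGroup K] [InnerProductSpace ℝ K] [FiniteDimensional ℝ K]
    (L E Z R F F' : Set K) (A : Submodule ℝ K) (b b' s t : K), Sys L E Z →
  SecP L Z R A → dm R = 3 → Brk L Z R A F F' b b' → F = Cn ![b, s, t] →
    (∀ F₂, Line L Z F₂ → Dis F₂ R → s ∈ F₂ ∧ t ∈ F₂) →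
      ∀ x ∈ L, ∃ ρ ∈ R, ∃ β β' σ τ : ℝ, 0 ≤ β ∧ 0 ≤ β' ∧ 0 ≤ σ ∧ 0 ≤ τ ∧
        x = ρ + β • b + β' • b' + σ • s + τ • t

/-- **Sim** (90 lines).  Faces of a simplicial cone.

Proof.  `I = {i | v i ∈ G}`.  `CnI v I ⊆ G`: clear.  `x = ∑ t_i v_i ∈ G`, `t_i ≥ 0`: for `t_i > 0`: `x = t_i v_i + (rest)`, both in `Cn v`, so `t_i v_i ∈ G`, `v i ∈ G` (`Fc.of_smul`), `i ∈ I`.  So `t_i = 0` for `i ∉ I`.  `span G = span (v '' I)`, dimension `I.card` (`LinearIndependent.comp`, `finrank_span_eq_card` / `finrank_span_finset_eq_card`). -/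
def S_Sim : Prop :=
  ∀ (K : Type) [NormedAddCommGroup K] [InnerProductSpace ℝ K] [FiniteDimensional ℝ K]
    (n : ℕ) (v : Fin n → K) (G : Set K), LinearIndependent ℝ v →
  Fc (Cn v) G → ∃ I : Finset (Fin n), G = CnI v I ∧ dm G = I.card ∧ ∀ i, v i ∈ G ↔ i ∈ I

/-- **Sx** (150 lines; uses `S_Sim`).  The configuration of faces at a break is impossible.

Proof.  `I ↦ CnI v I` is injective (`v i ∈ CnI v I ↔ i ∈ I` by independence), `dm (CnI v I) = I.card`.  `X = CnI v {0,1,3,4}` is a face of dimension 4, `≠ L` (`dm L = 6`), not thin (it contains `CnI v {0,1,3}`).  (a8): exactly two lines in it.  `CnI v {0,1,3}` and `CnI v {0,1,4}` are lines (`Sys.line_of_dm`), different.  So `CnI v {0,3,4}`, `CnI v {1,3,4}`, faces of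
dimension 3 different from both, are not lines, so they are thin (`Sys.line_of_dm`).  In the same way from `CnI v {0,2,3,4}`: `CnI v {2,3,4}` is thin.  Now `Y = CnI v {1,2,3,4}`: if it is not thin then (a4) it contains a line `G`; `G` is a face of `CnI v univ = Cn v` (`Fc.of_sub`), so `G = CnI v I` with `I.card = 3` (`S_Sim`), `I ⊆ {1,2,3,4}`: `I` is one of
`{1,2,3}, {1,2,4}, {1,3,4}, {2,3,4}` (`decide` / `fin_cases`), all thin: contradiction.  So `Y` is thin with `dm Y = 4`, against the hypothesis `dm ≤ 3`. -/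
def S_Sx : Prop :=
  ∀ (K : Type) [NormedAddCommGroup K] [InnerProductSpace ℝ K] [FiniteDimensional ℝ K]
    (L E Z : Set K) (v : Fin 5 → K), Sys L E Z →
  (∀ R, Fc L R → Thin Z R → dm R ≤ 3) → LinearIndependent ℝ v → (∀ I, Fc L (CnI v I)) →
    ¬ Thin Z (CnI v {0, 1, 3}) → ¬ Thin Z (CnI v {0, 2, 3}) → ¬ Thin Z (CnI v {0, 1, 4}) →
    ¬ Thin Z (CnI v {0, 2, 4}) → Thin Z (CnI v {1, 2, 3}) → Thin Z (CnI v {1, 2, 4}) → False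

/-- **Bf** (110 lines; uses `S_Bb`).  The faces at a break.

Proof.  `w = ![v 0, v 1, v 2, s, t]`.  INDEPENDENT: `v i ∈ R ⊆ A` are independent, `s, t ∈ F` are independent and `span F ∩ A = 0` (`SecP.ind`).  FACES: `CnI w I` is closed under `+`, `t •`, contained in `L`.  Let `x, y ∈ L`, `x + y ∈ CnI w I`.  `S_Bb`: `x = ρ + β b + β' b' + σ s + τ t`, `y = ρ₁ + β₁ b + β₁' b' + σ₁ s + τ₁ t`.  Modulo `A`
(`b' ≡ b`, `R ⊆ A`), by `SecP.ind` for `F` and the independence of `b, s, t`: the coefficient of `b` in `x + y`: `β + β' + β₁ + β₁' = 0`, so all four are `0`; `σ + σ₁ = c₃`, `τ + τ₁ = c₄` and `ρ + ρ₁ = ∑_(i<3) c_i v_i` where `c` are the coefficients of `x + y ∈ CnI w I`.  `ρ = ∑ ρ_i v_i`, `ρ₁ = ∑ ρ₁_i v_i` with nonnegative coefficients (`R = Cn v`):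
for `i ∉ I` the coefficient of `x + y` is `0`, so the one of `x` is `0`.  So `x ∈ CnI w I`. -/
def S_Bf : Prop :=
  ∀ (K : Type) [NormedAddCommGroup K] [InnerProductSpace ℝ K] [FiniteDimensional ℝ K]
    (L E Z R F F' : Set K) (A : Submodule ℝ K) (b b' s t : K)
  (v : Fin 3 → K), Sys L E Z → SecP L Z R A → dm R = 3 → Brk L Z R A F F' b b' →
    LinearIndependent ℝ ![b, s, t] → F = Cn ![b, s, t] →
    (∀ F₂, Line L Z F₂ → Dis F₂ R → s ∈ F₂ ∧ t ∈ F₂) → LinearIndependent ℝ v → R = Cn v →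
      LinearIndependent ℝ ![v 0, v 1, v 2, s, t] ∧
        ∀ I, Fc L (CnI ![v 0, v 1, v 2, s, t] I)

/-- **Bt** (150 lines; uses `S_Sec`, `S_Ba`, `S_Bk2`, `S_Bf`, `S_Sx`, `S_Phi`, `S_E0`).  There is no break.

Proof.  `s, t` from `S_Ba`; `v` from `S_Bk2` with `b₁ = s`, `b₂ = t` (not proportional by independence); `w = ![v 0, v 1, v 2, s, t]`, `S_Bf`.  Thin faces have dimension `≤ 3`: if `Thin Z R'`, `R' ≠ 0`, then `R' ⊆ R''` with `MaxT L Z R''` (`Sys.exists_maxT`), `S_Sec`: `R'' ⊆ A''`, `finrank A'' = 3`.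
NOT THIN: `CnI w {0,1,3}`: the line `H ⊆ Ph L A s` with trace `Cn ![v 0, v 1]` contains `s` (`PhiP.lin`), so it contains `CnI w {0,1,3}`, a face of dimension 3, so they are equal (`Fc.eq_of_dm`).  The same for `{0,2,3}` (line `H'`), and for `{0,1,4}`, `{0,2,4}` with the lines of `Ph L A t`.
THIN: `CnI w {1,2,3}` is a face of dimension 3 contained in `Ph L A s` (`v 1, v 2 ∈ R`, `s`).  If it is not thin it is a line (`Sys.line_of_dm`), so by the first part of `S_E0` (exactly two lines in `Ph L A s`, and `H ≠ H'` are two) it is `H` or `H'`; but `v 0 ∈ H`, `v 0 ∈ H'` and `v 0 ∉ CnI w {1,2,3}`.  The same for `{1,2,4}`.  `S_Sx`: contradiction. -/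
def S_Bt : Prop :=
  ∀ (K : Type) [NormedAddCommGroup K] [InnerProductSpace ℝ K] [FiniteDimensional ℝ K]
    (L E Z R F F' : Set K) (A : Submodule ℝ K) (b b' : K), Sys L E Z →
  SecP L Z R A → dm R = 3 → ¬ Brk L Z R A F F' b b'

/-- **NoB** (40 lines; uses `S_Bt`, `S_Tra`, `S_Ext`).  Only one line is disjoint from `R`.

Proof.  If `F ≠ F'` then `F ⊄ F'` (`Line.eq_of_sub`), so by `S_Ext` (`G = F'`) there is `b ∈ F`, `Ex L b`, `b ∉ F'`; `S_Tra`: `b' ∈ F'`, `b - b' ∈ A`, `b ≠ b'`: a break, against `S_Bt`. -/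
def S_NoB : Prop :=
  ∀ (K : Type) [NormedAddCommGroup K] [InnerProductSpace ℝ K] [FiniteDimensional ℝ K]
    (L E Z R : Set K) (A : Submodule ℝ K), Sys L E Z →
  SecP L Z R A → dm R = 3 → ∀ F F', Line L Z F → Dis F R → Line L Z F' → Dis F' R → F = F'

/-- **Dec** (50 lines; uses `S_NoB`, `S_Sgm`).  `L = R + F`.

Proof.  `SecP.sec`: `x - f ∈ A`, `f ∈ F`, `a = x - f`.  `S_Sgm` with `a₀ = a₁ = a`: let `e ∈ E` be positive on `R - 0`; `e ≠ 0`; (a3): a line in the kernel of `e`, disjoint from `R`, so it is `F` (`S_NoB`) and `⟪e, f⟫ = 0`, `⟪e, a⟫ = ⟪e, x⟫ ≥ 0`.  So `(1-s) • a + s • a = a ∈ R`. -/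
def S_Dec : Prop :=
  ∀ (K : Type) [NormedAddCommGroup K] [InnerProductSpace ℝ K] [FiniteDimensional ℝ K]
    (L E Z R : Set K) (A : Submodule ℝ K), Sys L E Z →
  SecP L Z R A → dm R = 3 → ∀ F, Line L Z F → Dis F R → ∀ x ∈ L, ∃ ρ ∈ R, ∃ f ∈ F, x = ρ + f

/-- **Su1** (90 lines).  Faces of a direct sum.

Proof.  (i) `G ⊆ R`, `H ⊆ F` faces of `L`.  `ext`: `x, y ∈ L`, `x + y = g + h`; `x = ρ + f`, `y = ρ' + f'`; `ρ + ρ' - g = h - f - f' ∈ span R ∩ span F = 0`, so `ρ + ρ' = g ∈ G`, `ρ ∈ G`; `f + f' = h`, `f ∈ H`.  `dm`: `span (Su G H) = span G ⊔ span H`, disjoint (`Submodule.finrank_sup_add_finrank_inf_eq`).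
(ii) `x ∈ Φ`, `x = ρ + f`, both in `L`, so both in `Φ` (face). -/
def S_Su1 : Prop :=
  ∀ (K : Type) [NormedAddCommGroup K] [InnerProductSpace ℝ K] [FiniteDimensional ℝ K]
    (L R F : Set K), IsCone L → Fc L R → Fc L F →
  (∀ x ∈ Submodule.span ℝ R, x ∈ Submodule.span ℝ F → x = 0) →
  (∀ x ∈ L, ∃ ρ ∈ R, ∃ f ∈ F, x = ρ + f) →
    (∀ G H, Fc L G → Fc L H → G ⊆ R → H ⊆ F → Fc L (Su G H) ∧ dm (Su G H) = dm G + dm H) ∧
    ∀ Q, Fc L Q → Q = Su (Q ∩ R) (Q ∩ F)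

/-- **Cn0** (120 lines; uses `S_Dec`, `S_Su1`).  Lines in `v + F` and in `R + g`.

Proof.  `span R ∩ span F = 0` (`SecP.ind`, `R ⊆ A`), `S_Dec`, `S_Su1`.  (1) `v ∈ R`, `Ex L v`.  `Q = Su (Ry v) F` is a face, `dm Q = 4` (`dm_Ry`), `≠ L`, not thin because `F ⊆ Q`.  (a8): two different lines in `Q`, one of them, `H`, is `≠ F`.  `H = Su (H ∩ R) (H ∩ F)`; `H ∩ R ⊆ Ry v` (`x = t v + f ∈ R` gives `f = 0`).  If `v ∉ H` then `H ∩ R = 0` (`Fc.of_smul`), `H ⊆ F`,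
`H = F`: contradiction.  So `v ∈ H`, `H ∩ R = Ry v`, `e = H ∩ F`, `3 = dm H = 1 + dm e`.
(2) `g ∈ F`, `Ex L g`: `Q = Su R (Ry g)`, `dm Q = 4`, not thin (`MaxT.not_thin`: contains `R` and `g ∉ R`).  (a8): lines `G ≠ G'` in `Q`.  For `H ∈ {G, G'}`: `H ∩ F ⊆ Ry g`; `g ∈ H` (otherwise `H ⊆ R` is thin), `H ∩ F = Ry g`, `H = Su (H ∩ R) (Ry g)`, `dm (H ∩ R) = 2`; `G ∩ R ≠ G' ∩ R` because `G ≠ G'`. -/
def S_Cn0 : Prop :=
  ∀ (K : Type) [NormedAddCommGroup K] [InnerProductSpace ℝ K] [FiniteDimensional ℝ K]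
    (L E Z R F : Set K) (A : Submodule ℝ K), Sys L E Z →
  SecP L Z R A → dm R = 3 → Line L Z F → Dis F R →
    (∀ v ∈ R, Ex L v → ∃ e, Fc L e ∧ e ⊆ F ∧ dm e = 2 ∧ Line L Z (Su (Ry v) e)) ∧
    ∀ g ∈ F, Ex L g → ∃ E₁ E₂, Fc L E₁ ∧ Fc L E₂ ∧ E₁ ⊆ R ∧ E₂ ⊆ R ∧ dm E₁ = 2 ∧ dm E₂ = 2 ∧
      E₁ ≠ E₂ ∧ Line L Z (Su E₁ (Ry g)) ∧ Line L Z (Su E₂ (Ry g))

/-- **Cn1** (80 lines; uses `S_Cn0`).  At most one `v` misses `g`.

Proof.  `E₁ ≠ E₂` for `g` from `S_Cn0`.  CLAIM: `v ∈ E₁` (and in the same way `v ∈ E₂`, `v' ∈ E₁`, `v' ∈ E₂`).  (a5) for `Su (Ry v) e` and `Su E₁ (Ry g)`: `x = α v + w = u + β g ≠ 0`, `w ∈ e ⊆ F`, `u ∈ E₁ ⊆ R`, `α, β ≥ 0`.  `α v - u = β g - w ∈ A ∩ span F = 0`: `α v = u`, `β g = w ∈ e`.  `β ≠ 0` would give `g ∈ e` (`Fc.of_smul`), so `β = 0`, `w = 0`, `α v = x ≠ 0`,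
`α > 0`, `v ∈ E₁`.  `E₁ ∩ E₂` is a face `≠ E₁` (equal dimensions), so `dm (E₁ ∩ E₂) ≤ 1` and it contains `v, v' ≠ 0`: `v = s • v'`. -/
def S_Cn1 : Prop :=
  ∀ (K : Type) [NormedAddCommGroup K] [InnerProductSpace ℝ K] [FiniteDimensional ℝ K]
    (L E Z R F : Set K) (A : Submodule ℝ K), Sys L E Z →
  SecP L Z R A → dm R = 3 → Line L Z F → Dis F R → ∀ v ∈ R, ∀ v' ∈ R, Ex L v → Ex L v' →
    ∀ e e', Fc L e → Fc L e' → e ⊆ F → e' ⊆ F → Line L Z (Su (Ry v) e) →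
      Line L Z (Su (Ry v') e') → ∀ g ∈ F, Ex L g → g ∉ e → g ∉ e' → ∃ s : ℝ, v = s • v'

/-- **Cn2** (180 lines; uses `S_Ext`, `S_Two`, `S_In3`).  Counting.

Proof.  (0) In a face `F` with `dm F = 3` there are three independent extreme elements (`S_Ext`: the extreme elements in `F` span `span F`; `exists_linearIndependent`-type argument, or: one, then one not proportional, then one not in the span of the two).  If every extreme element of `F` is proportional to one of three independent extreme `g 0, g 1, g 2` then `F = Cn g` (`S_Ext`, `IsCone.nonneg`).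
(1) A two-dimensional face `e` contains at most two elements of a family of pairwise non-proportional extreme elements (`S_Two`).
(2) Let `v 0, v 1, v 2` be independent extreme elements of `R`, `e i` the face for `v i`.  Suppose `F` has four pairwise non-proportional extreme elements `g 0..g 3`.  Each `e i` misses at least two of them.  For `i ≠ i'` no `g j` is missed by both (otherwise `v i = s • v i'`).  So `3 · 2 ≤ 4`: contradiction (`Finset.card` of disjoint union of the three sets `{j | g j ∉ e i}`).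
So by (0) `F = Cn g` with `g : Fin 3 → K` independent extreme: a fourth extreme element not proportional to the `g i` would give four pairwise non-proportional ones.
(3) Suppose `R` has four pairwise non-proportional extreme elements `v 0..v 3`.  Each `e i` misses at least one of `g 0, g 1, g 2` (1), and no `g j` is missed by two of them: `4 ≤ 3`: contradiction.  So `R = Cn v`. -/
def S_Cn2 : Prop :=
  ∀ (K : Type) [NormedAddCommGroup K] [InnerProductSpace ℝ K] [FiniteDimensional ℝ K]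
    (L R F : Set K) (Q : K → Set K → Prop), IsCone L → Fc L R → Fc L F →
  dm R = 3 → dm F = 3 →
  (∀ v ∈ R, Ex L v → ∃ e, Fc L e ∧ e ⊆ F ∧ dm e = 2 ∧ Q v e) →
  (∀ v ∈ R, ∀ v' ∈ R, Ex L v → Ex L v' → ∀ e e', Fc L e → Fc L e' → e ⊆ F → e' ⊆ F →
    Q v e → Q v' e' → ∀ g ∈ F, Ex L g → g ∉ e → g ∉ e' → ∃ s : ℝ, v = s • v') →
    ∃ v g : Fin 3 → K, LinearIndependent ℝ v ∧ LinearIndependent ℝ g ∧ R = Cn v ∧ F = Cn g

/-- **Smp** (80 lines; uses `S_Dec`, `S_Cn0`, `S_Cn1`, `S_Cn2`).  `dm R = 3` implies simplicial.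

Proof.  `F` from `SecP.exi`.  `S_Cn2` with `Q v e = Line L Z (Su (Ry v) e)`: `R = Cn v`, `F = Cn g`.  `w = Fin.append v g` (or `![v 0, v 1, v 2, g 0, g 1, g 2]`): independent because `span R ⊆ A`, `span F ∩ A = 0` (`SecP.ind`).  `L = R + F` (`S_Dec`) `= Cn w`. -/
def S_Smp : Prop :=
  ∀ (K : Type) [NormedAddCommGroup K] [InnerProductSpace ℝ K] [FiniteDimensional ℝ K]
    (L E Z R : Set K) (A : Submodule ℝ K), Sys L E Z →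
  SecP L Z R A → dm R = 3 → ∃ w : Fin 6 → K, LinearIndependent ℝ w ∧ L = Cn w

/-! ## Step F: all thin faces are rays -/

/-- **F1** (70 lines).  There is no four-dimensional not thin face.

Proof.  Let `Q` be one.  (a8): lines `F₁ ≠ F₂` in `Q` and no other line in `Q`.  `RayH.inter`: `F₁ ∩ F₂ = Ry g₀`, `g₀ ∈ Z`.  CLAIM: every line `F` contains `g₀`.  If `F ⊆ Q` then `F = F₁` or `F₂`.  Otherwise `F ∩ Q` is a face `≠ F`, so `dm (F ∩ Q) ≤ 1` (`RayH.dm_le`).  (a5): `x₁ ∈ F ∩ F₁`, `x₂ ∈ F ∩ F₂`, nonzero, both in `F ∩ Q`, so they are proportional (positive factor): `x₁ ∈ F₁ ∩ F₂ = Ry g₀`,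
so `g₀ ∈ F` (`Fc.of_smul`).  So `⟪e, g₀⟫ = 0` for all `e ∈ E` (`e ≠ 0`: (a3)), `-g₀ ∈ L` (`Sys.mem`), `g₀ = 0`: contradiction. -/
def S_F1 : Prop :=
  ∀ (K : Type) [NormedAddCommGroup K] [InnerProductSpace ℝ K] [FiniteDimensional ℝ K]
    (L E Z : Set K), Sys L E Z → RayH L Z →
  ∀ Q, Fc L Q → ¬ Thin Z Q → Q ≠ L → dm Q ≠ 4

/-- **F2** (150 lines; uses `S_F1`, `S_Sec`, `S_Phi`, `S_Tra`, `S_Ext`).  Every not thin face `≠ L` is a line.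

Proof.  (a4): a line `F ⊆ Q`.  Suppose `Q ≠ F`.  `S_Ext`: there is `g₁ ∈ Q`, `Ex L g₁`, `g₁ ∉ F` (else `Q ⊆ F`) and `g₂ ∈ L`, `Ex L g₂`, `g₂ ∉ Q` (else `L ⊆ Q`).  `g₁, g₂ ∈ Z` (`Sys.Ex_Z`); `RayH.maxT`: `Ry g_i` is a maximal thin face; `S_Sec`: `A₁`, `A₂`.  A line which does not contain `g_i` is disjoint from `Ry g_i`.  There is `b ∈ F`, `Ex L b` (`S_Ext`, `F ≠ 0`).
For every `b ∈ F`, `Ex L b` and `i = 1, 2`: `PhiP` (`S_Phi`) and `S_F1`: `dm (Ph L A_i b) ≤ 3`, so `Ph L A_i b` is a line (`Sys.line_of_dm`).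
(1) `G₁ = Ph L A₁ b ⊆ Q`: `b + g₁ ∉ Z` (`PhiP.gen` with `r = g₁`, `Ex.Fa_eq`), so `G₁ = Fa L (b + g₁)` (`Line.gen`) `⊆ Q` because `b + g₁ ∈ Q`.  `g₁ ∈ G₁`.
(2) Let `G ⊆ Q` be any line.  `F ⊆ G`: by `S_Ext` it is enough that `b ∈ G` for `b ∈ F`, `Ex L b`.  `H = Ph L A₂ b` is a line with `g₂ ∈ H`, so `H ⊄ Q`; `H ∩ Q` is a face `≠ H`, `dm (H ∩ Q) ≤ 1`.  `S_Tra` (lines `F`, `G`, both disjoint from `Ry g₂`): `b' ∈ G`, `b - b' ∈ A₂`, `Ph L A₂ b' = H ∋ b'`.  `b, b' ∈ H ∩ Q`, so `b' = s • b`, so `b = b'` (`eq_of_smul_sub`, `PhiP.notA`).  So `b ∈ G`.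
So `F = G` for every line `G ⊆ Q` (`Line.eq_of_sub`); `G = G₁ ∋ g₁ ∉ F`: contradiction. -/
def S_F2 : Prop :=
  ∀ (K : Type) [NormedAddCommGroup K] [InnerProductSpace ℝ K] [FiniteDimensional ℝ K]
    (L E Z : Set K), Sys L E Z → RayH L Z →
  ∀ Q, Fc L Q → ¬ Thin Z Q → Q ≠ L → Line L Z Q

/-- **F2b** (80 lines; uses `S_F2`, `S_Phi`).  The lines through `g` are the `Φ_b`.

Proof.  `g + g' ∉ Z` (`RayH.add`), `≠ 0`, in `L`, not in the interior (a2); so `G = Fa L (g + g')` is a face, not thin (`Sys.thin_iff`), `≠ L` (`interior_iff`), so it is a line by `S_F2`; `g, g' ∈ G`.  (a5): `b ∈ G ∩ F`, `b ≠ 0`.  `G ≠ F` because `g ∉ F` (`Dis`), so `b ∈ Z` (`Sys.line_inter`), `Ex L b` (`RayH.ex`).  `PhiP` for `b` (`S_Phi`): `H = Ph L A b` is not thin, `≠ L`, so it is a line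
(`S_F2`), `b, g ∈ H`.  `b + g ∉ Z` (`PhiP.gen`), so `H = Fa L (b + g) = G` (`Line.gen` twice; `b + g ∈ G`).  So `g' ∈ Ph L A b`. -/
def S_F2b : Prop :=
  ∀ (K : Type) [NormedAddCommGroup K] [InnerProductSpace ℝ K] [FiniteDimensional ℝ K]
    (L E Z : Set K) (A : Submodule ℝ K) (g : K), Sys L E Z → RayH L Z →
  g ∈ Z → SecP L Z (Ry g) A → ∀ F, Line L Z F → Dis F (Ry g) → ∀ g' ∈ Z, (∀ t : ℝ, g' ≠ t • g) →
    ∃ b ∈ F, Ex L b ∧ g' ∈ Ph L A b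

/-- **F3a** (70 lines; uses `S_Ran`, `S_F2b`, `S_Phi`).  RANGE in the case of rays.

Proof.  `h ∈ interior L`, `F` from `SecP.exi`.  `S_Ran` with `R = Ry g`: let `p ∈ Z`, `p - h ∈ A`.  If `p = t • g` then `p ∈ A`, `h ∈ A ∩ L = Ry g`, and `h ≠ 0` is a positive multiple of `g`, in `Z` (`Sys.Z_smul`), against `Sys.int_notZ`.  Otherwise `S_F2b`: `p - t • b ∈ A`, `t ≥ 0`; `h - t • b = (p - t • b) - (p - h) ∈ A`, so `h ∈ Ph L A b`, which is a face `≠ L` (`Sys.not_int`): contradiction. -/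
def S_F3a : Prop :=
  ∀ (K : Type) [NormedAddCommGroup K] [InnerProductSpace ℝ K] [FiniteDimensional ℝ K]
    (L E Z : Set K) (A : Submodule ℝ K) (g : K), Sys L E Z → RayH L Z →
  g ∈ Z → SecP L Z (Ry g) A → ∀ c : K, 0 < ⟪c, g⟫ → ∃ e ∈ E, ∀ a ∈ A, ⟪e, a⟫ = ⟪c, a⟫

/-- **F3p** (90 lines; uses `S_Phi`, `S_F1`).  The plane `P_b`.

Proof.  `PhiP` at `b`; `3 ≤ dm Ph` (`Sys.three_le`), `dm Ph ≤ 3` by `S_F1` (`dim`, `ne`, `nthin`): `dm Ph = 3`.  `W = span Ph ⊓ A`.  `span Ph = W ⊔ span {b}` (`PhiP.spn`: `x = (x - t • b) + t • b`, and `b ∈ span Ph`), so `finrank W ≥ 2`, and `b ∉ W`, so `finrank W = 2`.  `g ∈ W` (`PhiP.sub`), `g ≠ 0`: choose `p ∈ W` with `g, p` independent (`p ∈ W`, `p ∉ span {g}`); they span `W`.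
If `x ∈ L`, `x - b ∈ A` then `x ∈ Ph`, so `x - b ∈ W`. -/
def S_F3p : Prop :=
  ∀ (K : Type) [NormedAddCommGroup K] [InnerProductSpace ℝ K] [FiniteDimensional ℝ K]
    (L E Z : Set K) (A : Submodule ℝ K) (g : K), Sys L E Z → RayH L Z →
  g ∈ Z → SecP L Z (Ry g) A → ∀ F, Line L Z F → Dis F (Ry g) → ∀ b ∈ F, Ex L b → ∃ p, Pb L A g b p

/-- **F3c** (120 lines; uses `S_F3a`, `S_Tra`).  `b` is a convex function of one linear function.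

Proof.  (0) For every `y : ℝ` there is `e ∈ E` with `⟪e, g⟫ = 1`, `⟪e, p⟫ = y`: there is `c : K` with `⟪c, g⟫ = 1`, `⟪c, p⟫ = y` (`g, p` independent; e.g. `c` in their span, or by extending to a basis and `toDual`), `S_F3a` (`g, p ∈ A`).
(1) For `e ∈ E`, `⟪e, g⟫ = 1` there is `β ∈ L` with `β - b ∈ A` and `⟪e, β⟫ = 0`: (a3) a line in the kernel of `e`, disjoint from `Ry g`; `S_Tra`.
(2) If `e, e' ∈ E`, `⟪e, g⟫ = ⟪e', g⟫ = 1`, `⟪e, p⟫ = ⟪e', p⟫` then `⟪e, b⟫ ≤ ⟪e', b⟫` (so `=`): `β` for `e`; `b - β ∈ span {g, p}` (`Pb.dif`), so `⟪e, b⟫ = ⟪e, b - β⟫ = ⟪e', b - β⟫ = ⟪e', b⟫ - ⟪e', β⟫ ≤ ⟪e', b⟫`.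
(3) `φ y = ⟪e, b⟫` for any `e` as in (0) (`Classical.choose`); by (2) `⟪e, b⟫ = φ ⟪e, p⟫` for all `e ∈ E` with `⟪e, g⟫ = 1`.
(4) CONVEX: `y = (1-λ) y₀ + λ y₁`; `e, e₀, e₁` for `y, y₀, y₁`; `β` for `e`; `b - β = s g + t p`: `φ y = ⟪e, b - β⟫ = s + t y = (1-λ)(s + t y₀) + λ (s + t y₁) = (1-λ) ⟪e₀, b - β⟫ + λ ⟪e₁, b - β⟫ ≤ (1-λ) φ y₀ + λ φ y₁`. -/
def S_F3c : Prop :=
  ∀ (K : Type) [NormedAddCommGroup K] [InnerProductSpace ℝ K] [FiniteDimensional ℝ K]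
    (L E Z : Set K) (A : Submodule ℝ K) (g : K), Sys L E Z → RayH L Z →
  g ∈ Z → SecP L Z (Ry g) A → ∀ F, Line L Z F → Dis F (Ry g) → ∀ b ∈ F, Ex L b →
    ∀ p, Pb L A g b p → ∃ φ : ℝ → ℝ, ConvexOn ℝ Set.univ φ ∧
      ∀ e ∈ E, ⟪e, g⟫ = 1 → ⟪e, b⟫ = φ ⟪e, p⟫

/-- **F3d** (130 lines; uses `S_F3a`, `S_F3c`, `S_Tra`, `S_Phi`).  Different rays have different planes.

Proof.  Suppose `g, p, p'` are dependent.  As `g, p` are independent, `p' ∈ span {g, p}`.  `finrank A = 3`: choose `d ∈ A`, `d ≠ 0`, `⟪d, g⟫ = ⟪d, p⟫ = 0` (so `⟪d, p'⟫ = 0`).  Choose `e₀ ∈ E` with `⟪e₀, g⟫ = 1` (`S_F3a`, `c = ‖g‖⁻² g`).  For `s : ℝ` choose `e_s ∈ E` with `e_s = e₀ + s d` on `A` (`S_F3a`, `c = e₀ + s • d`).  `⟪e_s, g⟫ = 1`, `⟪e_s, p⟫ = ⟪e₀, p⟫`, `⟪e_s, p'⟫ = ⟪e₀, p'⟫`, so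
`⟪e_s, b⟫ = ⟪e₀, b⟫` and `⟪e_s, b'⟫ = ⟪e₀, b'⟫` (`S_F3c`).  (a3): a line `F₀` in the kernel of `e₀`, disjoint from `Ry g`; `S_Tra`: `β, β' ∈ F₀` extreme with `b - β, b' - β' ∈ A`.  By `Pb.dif` these differences are in `span {g, p}` resp. `span {g, p'}`, so `⟪e_s, β⟫ = ⟪e₀, β⟫ = 0`, `⟪e_s, β'⟫ = 0`.  `β, β'` are not proportional (`β = u • β'` gives `b - u • b' ∈ A ∩ span F`, `b = u • b'`), so
`β + β' ∉ Z` (`RayH.add`) and `Fa L (β + β') = F₀` (`Line.gen`); so `e_s = 0` on `F₀`.  `L ⊆ F₀ + A` (`SecP.sec`): for `x ∈ L`, `x = f + a`: `⟪e_s, x⟫ = ⟪e_s, a⟫ = ⟪e₀, a⟫ + s ⟪d, a⟫ ≥ 0` for all `s`, so `⟪d, a⟫ = 0`.  Every `a ∈ A` is such a difference up to linear combinations: `d ∈ A ⊆ span L`: the linear map `x ↦ ⟪e₁ - e₀, x⟫` vanishes on `L` (it is `⟪d, a⟫` for `x = f + a`), so it is zero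
(`span_top`), and at `x = d ∈ A` it is `⟪d, d⟫ ≠ 0`: contradiction. -/
def S_F3d : Prop :=
  ∀ (K : Type) [NormedAddCommGroup K] [InnerProductSpace ℝ K] [FiniteDimensional ℝ K]
    (L E Z : Set K) (A : Submodule ℝ K) (g : K), Sys L E Z → RayH L Z →
  g ∈ Z → SecP L Z (Ry g) A → ∀ F, Line L Z F → Dis F (Ry g) → ∀ b ∈ F, ∀ b' ∈ F,
    Ex L b → Ex L b' → (∀ s : ℝ, b ≠ s • b') → ∀ p p', Pb L A g b p → Pb L A g b' p' →
      LinearIndependent ℝ ![g, p, p']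

/-- **Fre** (60 lines).  Continuous functions with vanishing third differences.

Proof.  `B h k = f (h+k) - f h - f k + f 0`.  The hypothesis at `x = 0` says `B (h + k) l = B h l + B k l` (expand), and `B` is symmetric and continuous, so `B h k = h k B 1 1` (`AddMonoidHom.toRealLinearMap`, or `map_real_smul`).  `u x = f x - f 0 - (B 1 1 / 2) x²` satisfies `u (x + y) = u x + u y` and is continuous, so `u x = u 1 * x`. -/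
def S_Fre : Prop := ∀ f : ℝ → ℝ, Continuous f →
  (∀ x h k l : ℝ, f (x+h+k+l) - f (x+h+k) - f (x+h+l) - f (x+k+l) + f (x+h) + f (x+k) + f (x+l) - f x
    = 0) → ∃ a b c : ℝ, ∀ x, f x = a * x ^ 2 + b * x + c

/-- **Feq** (70 lines; uses `S_Fre`).  The functional equation.

Proof.  Put `g(x, y) = f₁ x + f₂ y + f₃ (a x + b y + c) + f₄ (a' x + b' y + c') = 0`.  Apply the three difference operators in the directions `(h, 0)` [kills `f₂`], `(k, -a k / b)` [kills `f₃`], `(l, -a' l / b')` [kills `f₄`]: the third difference of `f₁` with steps `h, k, l` is zero, i.e. the alternating sum of `g` over the eight points `(x, y) + ε₁ (h,0) + ε₂ (k, -a k/b) + ε₃ (l, -a' l/b')`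
is the third difference of `f₁` (all other contributions cancel in pairs).  `S_Fre`. -/
def S_Feq : Prop := ∀ (f₁ f₂ f₃ f₄ : ℝ → ℝ) (a b c a' b' c' : ℝ), Continuous f₁ → b ≠ 0 → b' ≠ 0 →
  (∀ x y : ℝ, f₁ x + f₂ y + f₃ (a * x + b * y + c) + f₄ (a' * x + b' * y + c') = 0) →
    ∃ u v w : ℝ, ∀ x, f₁ x = u * x ^ 2 + v * x + w

/-- **Fou** (100 lines; uses `S_In3`, `S_Ext`).  Four extreme rays of a line.

Proof.  Proper faces of `F` have dimension `≤ 1` (`RayH.dm_le`).  By `S_Ext` the extreme elements in `F` span `span F` (dimension 3): there are `b₂, b₃ ∈ F` extreme with `b, b₂, b₃` independent.  They are a basis of `span F`.  `F ⊄ Cn ![b, b₂, b₃]`: otherwise `F = Cn ![b, b₂, b₃]` and `{x ∈ F | third coordinate 0} = Cn ![b, b₂]` is a face of `F`, hence of `L` (`Fc.trans`), of dimension 2, `≠ F`: contradiction.  So by `S_Ext`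
there is an extreme `b₄ ∈ F`, `b₄ ∉ Cn ![b, b₂, b₃]`; it is not proportional to `b, b₂, b₃` (the factor would be positive, `IsCone.nonneg`).  `b₄ = β₁ b + β₂ b₂ + β₃ b₃`; `β₁ ≠ 0` (else `b₂, b₃, b₄` are dependent, against `S_In3`), and in the same way `β₂, β₃ ≠ 0`.  Solve for `b`. -/
def S_Fou : Prop :=
  ∀ (K : Type) [NormedAddCommGroup K] [InnerProductSpace ℝ K] [FiniteDimensional ℝ K]
    (L E Z F : Set K), Sys L E Z → RayH L Z → Line L Z F → ∀ b ∈ F, Ex L b →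
  ∃ b₂ ∈ F, ∃ b₃ ∈ F, ∃ b₄ ∈ F, Ex L b₂ ∧ Ex L b₃ ∧ Ex L b₄ ∧
    (∀ s : ℝ, b ≠ s • b₂) ∧ (∀ s : ℝ, b ≠ s • b₃) ∧ (∀ s : ℝ, b ≠ s • b₄) ∧
    (∀ s : ℝ, b₂ ≠ s • b₃) ∧ (∀ s : ℝ, b₂ ≠ s • b₄) ∧ (∀ s : ℝ, b₃ ≠ s • b₄) ∧
    ∃ c₂ c₃ c₄ : ℝ, c₂ ≠ 0 ∧ c₃ ≠ 0 ∧ c₄ ≠ 0 ∧ b = c₂ • b₂ + c₃ • b₃ + c₄ • b₄

/-- **F4a** (130 lines; uses `S_F3a`, `S_F3p`, `S_F3c`, `S_F3d`, `S_Fou`, `S_Feq`).  `b` is a quadratic polynomial.

Proof.  `b₂, b₃, b₄` from `S_Fou`; `p, p₂, p₃, p₄` (`S_F3p` for `b₂, b₃, b₄`; `p` is given), `φ, φ₂, φ₃, φ₄` from `S_F3c`; convex functions on `ℝ` are continuous (`ConvexOn.continuousOn` on `univ`, open).  `g, p, p₂` are independent (`S_F3d`), so they are a basis of `A` (`finrank A = 3`): `p₃ = α p + β p₂ + γ g`, `p₄ = α' p + β' p₂ + γ' g`.  `β ≠ 0`: otherwise `g, p, p₃` are dependent,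
against `S_F3d` (`b, b₃`); `β' ≠ 0` in the same way.  For `x, y : ℝ` there is `e ∈ E` with `⟪e, g⟫ = 1`, `⟪e, p⟫ = x`, `⟪e, p₂⟫ = y` (`S_F3a` with a suitable `c`).  `b = c₂ b₂ + c₃ b₃ + c₄ b₄` gives `φ x - c₂ φ₂ y - c₃ φ₃ (α x + β y + γ) - c₄ φ₄ (α' x + β' y + γ') = 0`.  `S_Feq`. -/
def S_F4a : Prop :=
  ∀ (K : Type) [NormedAddCommGroup K] [InnerProductSpace ℝ K] [FiniteDimensional ℝ K]
    (L E Z : Set K) (A : Submodule ℝ K) (g : K), Sys L E Z → RayH L Z →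
  g ∈ Z → SecP L Z (Ry g) A → ∀ F, Line L Z F → Dis F (Ry g) → ∀ b ∈ F, Ex L b →
    ∀ p, Pb L A g b p → ∃ u v w : ℝ,
      ∀ e ∈ E, ⟪e, g⟫ = 1 → ⟪e, b⟫ = u * ⟪e, p⟫ ^ 2 + v * ⟪e, p⟫ + w

/-- **F4b** (130 lines; uses `S_F4a`, `S_F3p`, `S_Ext`).  Every `k` is a quadratic polynomial.

Proof.  `g ∈ A`, `g ≠ 0`, `finrank A = 3`: choose `p₁, p₂ ∈ A` with `g, p₁, p₂` independent; they span `A`.  `w e = ![1, ⟪e, p₁⟫, ⟪e, p₂⟫]`.  `G` = the set of `k` for which a symmetric `M` with the property exists: a submodule (sums and multiples of symmetric matrices).  (1) `A ⊆ G`: `a = x g + y p₁ + z p₂`, `⟪e, a⟫ = x + y ⟪e, p₁⟫ + z ⟪e, p₂⟫`: `M = !![x, y/2, z/2; y/2, 0, 0; z/2, 0, 0]`.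
(2) `b ∈ F` (`SecP.exi`), `Ex L b`: `S_F3p`: `p ∈ A`, `p = x g + y p₁ + z p₂`; `S_F4a`: `⟪e, b⟫ = u ⟪e, p⟫² + v ⟪e, p⟫ + w₀`, `⟪e, p⟫ = x + y ⟪e, p₁⟫ + z ⟪e, p₂⟫`: `M = u (x,y,z)ᵀ(x,y,z) + ...`.  `S_Ext` (`G`): `F ⊆ G`.  (3) `L ⊆ F + A ⊆ G` (`SecP.sec`), `span L = ⊤` (`span_top`). -/
def S_F4b : Prop :=
  ∀ (K : Type) [NormedAddCommGroup K] [InnerProductSpace ℝ K] [FiniteDimensional ℝ K]
    (L E Z : Set K) (A : Submodule ℝ K) (g : K), Sys L E Z → RayH L Z →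
  g ∈ Z → SecP L Z (Ry g) A → ∃ p₁ ∈ A, ∃ p₂ ∈ A, LinearIndependent ℝ ![g, p₁, p₂] ∧
    ∀ k : K, ∃ M : Matrix (Fin 3) (Fin 3) ℝ, M.IsSymm ∧ ∀ e ∈ E, ⟪e, g⟫ = 1 →
      ⟪e, k⟫ = ![1, ⟪e, p₁⟫, ⟪e, p₂⟫] ⬝ᵥ M *ᵥ ![1, ⟪e, p₁⟫, ⟪e, p₂⟫]

/-- **F4c** (140 lines; uses `S_F4b`, `S_F3a`).  `L` is the cone of positive semidefinite forms.

Proof.  `p₁, p₂` from `S_F4b`.  `B = Module.finBasis ℝ K` (or any basis), `M_i` for the basis vectors, `M = B.constr ℝ (fun i => M_i)` (linear in `k`; symmetric; the formula `⟪e, k⟫ = w ⬝ᵥ M k *ᵥ w`, `w = ![1, ⟪e, p₁⟫, ⟪e, p₂⟫]`, for all `k` by linearity).  For `x, y : ℝ` there is `e ∈ E` with `⟪e, g⟫ = 1`, `⟪e, p₁⟫ = x`, `⟪e, p₂⟫ = y` (`S_F3a`).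
(1) `k ∈ L`, `v : Fin 3 → ℝ`: if `v 0 ≠ 0`: `v = v 0 • ![1, x, y]` and `v ⬝ᵥ M k *ᵥ v = (v 0)² ⟪e, k⟫ ≥ 0`.  If `v 0 = 0`: limit of `v + ε • ![1,0,0]`, `ε → 0` (the form is continuous; or: a real polynomial in `ε` which is `≥ 0` for `ε ≠ 0` is `≥ 0` at `0`).
(2) If `v ⬝ᵥ M k *ᵥ v ≥ 0` for all `v` then `⟪e, k⟫ ≥ 0` for `e ∈ E` with `⟪e, g⟫ = 1`, by scaling (`Sys.Esm`) for all `e ∈ E` with `⟪e, g⟫ > 0`, so `k ∈ L` by (a10).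
(3) Injective: `M k = 0` gives `k ∈ L` and `-k ∈ L` by (2), `k = 0`; `LinearMap.ker_eq_bot`. -/
def S_F4c : Prop :=
  ∀ (K : Type) [NormedAddCommGroup K] [InnerProductSpace ℝ K] [FiniteDimensional ℝ K]
    (L E Z : Set K) (A : Submodule ℝ K) (g : K), Sys L E Z → RayH L Z →
  g ∈ Z → SecP L Z (Ry g) A → ∃ M : K →ₗ[ℝ] Matrix (Fin 3) (Fin 3) ℝ,
    Function.Injective M ∧ (∀ k, (M k).IsSymm) ∧
      ∀ k, k ∈ L ↔ ∀ v : Fin 3 → ℝ, 0 ≤ v ⬝ᵥ M k *ᵥ v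

/-- **D1** (60 lines; uses `S_Sec`, `S_Dfn`, `S_Smp`, `S_F4c`, `S_Ext`).  The classification.

Proof.  For every `MaxT L Z R`: `S_Sec`: `A`, `R ⊆ A`, so `dm R ≤ 3`; `dm R ≠ 2` (`S_Dfn`); `dm R ≠ 0` (`MaxT.ne`, `dm_pos`).  If some `MaxT L Z R` has `dm R = 3`: `S_Smp`.  Otherwise all have `dm R = 1` and every thin face `R'` has `dm R' ≤ 1` (`R' = 0` or `Sys.exists_maxT`, `dm_mono`): `RayH L Z`.  `g ∈ Z` exists: `L` has an extreme element by `S_Ext` (with `G = {0}`; `L ≠ {0}`),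
it is in `Z` (`Sys.Ex_Z`).  `RayH.maxT`, `S_Sec`, `S_F4c`. -/
def S_D1 : Prop :=
  ∀ (K : Type) [NormedAddCommGroup K] [InnerProductSpace ℝ K] [FiniteDimensional ℝ K]
    (L E Z : Set K), Sys L E Z →
  (∃ w : Fin 6 → K, LinearIndependent ℝ w ∧ L = Cn w) ∨
  ∃ M : K →ₗ[ℝ] Matrix (Fin 3) (Fin 3) ℝ, Function.Injective M ∧ (∀ k, (M k).IsSymm) ∧
    ∀ k, k ∈ L ↔ ∀ v : Fin 3 → ℝ, 0 ≤ v ⬝ᵥ M k *ᵥ v

end D1

end TightRP
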